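import Pool.Agent.H85.LN.Gro

/-!
# Landau case: lower bound of the mass density on bounded time intervals

`groN`: iteration of `groL`. `mass_lowL`: data `≥ c` on a ball of radius `r` around `(x, v₀(x))`, `|v₀(x)| ≤ V`, for every `x`.
-/

set_option autoImplicit false

open MeasureTheory Set Filter Topology Pool.Agent.H25.Kin Pool.Agent.H48.PR Pool.Agent.H48.LN
open Pool.Agent.H48.LV (LSol)
open Pool.Agent.H37.LN (DC)

namespace Pool.Agent.H85.LN

variable {d : ℕ} {γ : ℝ}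

/-- iterated growth -/
theorem groN (hd : 2 ≤ d) (h1 : -2 < γ) (h2 : γ ≤ 0) {δ : ℝ} (hδ : 0 < δ) (U : ℕ → ℝ) {V : ℝ}
    (hV : 0 ≤ V) (n : ℕ) : ∀ {r ρ h ℓ : ℝ}, 0 < r → 0 < ρ → 0 < h → 0 < ℓ →
    ∃ ℓ' > 0, ∀ (T : ℝ) (f : ℝ → Vec d → Vec d → ℝ), LSol γ δ T f →
      (∀ t ∈ Ico 0 T, DC U (f t)) → ∀ ta, 0 ≤ ta → ta + h < T → ∀ x₀ v₀ : Vec d,
      nsq v₀ ≤ V ^ 2 →
      (∀ t ∈ Icc ta (ta + h), ∀ x v, nsq (x - x₀ - (t - ta) • v₀) ≤ ρ ^ 2 →
        nsq (v - v₀) ≤ r ^ 2 → ℓ ≤ f t x v) →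
      ∀ x v, nsq (x - x₀ - h • v₀) ≤ (ρ / 2 ^ n) ^ 2 → nsq (v - v₀) ≤ (2 ^ n * r) ^ 2 →
        ℓ' ≤ f (ta + h) x v := by
  induction n with
  | zero =>
    intro r ρ h ℓ hr hρ hh hℓ
    refine ⟨ℓ, hℓ, fun T f hf hU ta hta hbT x₀ v₀ hv₀ hcyl x v hx hv => ?_⟩
    refine hcyl (ta + h) ⟨by linarith, le_rfl⟩ x v ?_ ?_
    · rw [add_sub_cancel_left]
      simpa using hx
    · simpa using hv
  | succ n ih =>
    intro r ρ h ℓ hr hρ hh hℓ
    obtain ⟨ℓ₁, hℓ₁, hg⟩ := groL (d := d) hd h1 h2 hδ U hr hρ hV hh hℓ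
    obtain ⟨ℓ₂, hℓ₂, hg2⟩ := ih (r := 2 * r) (ρ := ρ / 2) (h := h / 4) (ℓ := ℓ₁) (by positivity)
      (by positivity) (by positivity) hℓ₁
    refine ⟨ℓ₂, hℓ₂, fun T f hf hU ta hta hbT x₀ v₀ hv₀ hcyl x v hx hv => ?_⟩
    have h3 := hg T f hf hU ta hta hbT x₀ v₀ hv₀ hcyl
    have e0 : ta + 3 / 4 * h + h / 4 = ta + h := by ring
    have h4 := hg2 T f hf hU (ta + 3 / 4 * h) (by positivity) (by rw [e0]; exact hbT)
      (x₀ + (3 / 4 * h) • v₀) v₀ hv₀ (fun t ht y w hy hw => by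
        rw [e0] at ht
        refine h3 t ht y w ?_ hw
        have e1 : y - x₀ - (t - ta) • v₀ =
            y - (x₀ + (3 / 4 * h) • v₀) - (t - (ta + 3 / 4 * h)) • v₀ := by
          rw [show t - ta = (t - (ta + 3 / 4 * h)) + 3 / 4 * h by ring, add_smul]
          abel
        rw [e1]
        refine hy.trans (le_of_eq ?_)
        ring) x v (by
        have e1 : x - (x₀ + (3 / 4 * h) • v₀) - (h / 4) • v₀ = x - x₀ - h • v₀ := by
          rw [show h = 3 / 4 * h + h / 4 by ring, add_smul,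
            show 3 / 4 * (3 / 4 * h + h / 4) = 3 / 4 * h by ring,
            show (3 / 4 * h + h / 4) / 4 = h / 4 by ring]
          abel
        rw [e1]
        refine hx.trans (le_of_eq ?_)
        rw [pow_succ]
        ring) (by
        refine hv.trans (le_of_eq ?_)
        rw [pow_succ]
        ring)
    rwa [e0] at h4

private lemma mass_small {h V : ℝ} {v₀ : Vec d} {a : ℝ} (hh : 0 ≤ h) (hv : nsq v₀ ≤ V ^ 2)
    (hV : 0 ≤ V) (ha : h * V ≤ a) : nsq (h • v₀) ≤ a ^ 2 := by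
  have e : nsq (h • v₀) = h ^ 2 * nsq v₀ := by
    unfold nsq
    rw [Finset.mul_sum]
    refine Finset.sum_congr rfl fun i _ => ?_
    simp only [Pi.smul_apply, smul_eq_mul]
    ring
  rw [e]
  calc h ^ 2 * nsq v₀ ≤ h ^ 2 * V ^ 2 := mul_le_mul_of_nonneg_left hv (by positivity)
    _ = (h * V) ^ 2 := by ring
    _ ≤ a ^ 2 := pow_le_pow_left₀ (by positivity) ha 2

private lemma mass_ball_in {v v₀ : Vec d} {V R : ℝ} (hV : 0 ≤ V) (hv : nsq v ≤ 1)
    (hv₀ : nsq v₀ ≤ V ^ 2) (hR : 2 * (V + 1) ≤ R) : nsq (v - v₀) ≤ R ^ 2 := by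
  have h1 := nsq_add_le v (-v₀)
  have e : nsq (-v₀) = nsq v₀ := by
    unfold nsq
    simp
  rw [e, ← sub_eq_add_neg] at h1
  nlinarith

/-- lower bound of the mass density on bounded time intervals -/
theorem mass_lowL (hd : 2 ≤ d) (h1 : -2 < γ) (h2 : γ ≤ 0) {δ : ℝ} (hδ : 0 < δ) (U : ℕ → ℝ)
    {c r V : ℝ} (hc : 0 < c) (hr : 0 < r) (hV : 0 ≤ V) (T₀ : ℝ) :
    ∃ m > 0, ∀ (T : ℝ) (f : ℝ → Vec d → Vec d → ℝ), LSol γ δ T f →
      (∀ t ∈ Ico 0 T, DC U (f t)) →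
      (∀ x, ∃ v₀, nsq v₀ ≤ V ^ 2 ∧ ∀ y w, nsq (y - x) + nsq (w - v₀) ≤ r ^ 2 → c ≤ f 0 y w) →
      ∀ t ∈ Ico 0 T, t ≤ T₀ → ∀ x, m ≤ ∫ v, f t x v := by
  -- first phase
  obtain ⟨h₁, hh₁, hper⟩ := perL (d := d) hd h1 h2 hδ U (r := r / 2) (ρ := r / 2) (V := V)
    (by positivity) (by positivity) hV
  obtain ⟨n, hn⟩ : ∃ n : ℕ, 2 * (V + 1) / (r / 4) ≤ 2 ^ n := by
    obtain ⟨n, hn⟩ := exists_nat_gt (2 * (V + 1) / (r / 4))
    refine ⟨n, hn.le.trans ?_⟩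
    exact_mod_cast Nat.lt_two_pow_self.le
  have hn' : 2 * (V + 1) ≤ 2 ^ n * (r / 4) := by
    rwa [div_le_iff₀ (by positivity)] at hn
  obtain ⟨h₀, hh₀, hh₀₁, hh₀V⟩ : ∃ h₀ : ℝ, 0 < h₀ ∧ h₀ ≤ h₁ ∧ h₀ * V ≤ r / 4 / 2 ^ n := by
    refine ⟨min h₁ (r / 4 / 2 ^ n / (V + 1)), lt_min hh₁ (by positivity), min_le_left _ _, ?_⟩
    have e1 := mul_le_mul_of_nonneg_right (min_le_right h₁ (r / 4 / 2 ^ n / (V + 1))) hV
    have e2 : r / 4 / 2 ^ n / (V + 1) * V ≤ r / 4 / 2 ^ n := by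
      rw [div_mul_eq_mul_div, div_le_iff₀ (by positivity)]
      have : 0 < r / 4 / 2 ^ n := by positivity
      nlinarith
    exact e1.trans e2
  obtain ⟨ℓ₀, hℓ₀, hgr⟩ := groN (d := d) hd h1 h2 hδ U hV n (r := r / 4) (ρ := r / 4) (h := h₀)
    (ℓ := c / 4) (by positivity) (by positivity) hh₀ (by positivity)
  obtain ⟨c₁, hc₁, hm₁⟩ := Pool.Agent.H85.LB.mass_ball (d := d) (by omega)
    (show 0 < r / 4 by positivity)
  -- second phase
  obtain ⟨h₂, hh₂, hper2⟩ := perL (d := d) hd h1 h2 hδ U (r := 1) (ρ := 1) (V := 0) one_pos one_pos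
    le_rfl
  obtain ⟨c₂, hc₂, hm₂⟩ := Pool.Agent.H85.LB.mass_ball (d := d) (by omega)
    (show (0 : ℝ) < 1 / 2 by norm_num)
  have hz : nsq (0 : Vec d) = 0 := by simp [nsq]
  have main : ∀ K : ℕ, ∃ m > 0, ∃ ℓ > 0, ∀ (T : ℝ) (f : ℝ → Vec d → Vec d → ℝ), LSol γ δ T f →
      (∀ t ∈ Ico 0 T, DC U (f t)) →
      (∀ x, ∃ v₀, nsq v₀ ≤ V ^ 2 ∧ ∀ y w, nsq (y - x) + nsq (w - v₀) ≤ r ^ 2 → c ≤ f 0 y w) →
      (∀ t ∈ Ico 0 T, t ≤ h₀ + K * h₂ → ∀ x, m ≤ ∫ v, f t x v) ∧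
      (h₀ + K * h₂ < T → ∀ x v, nsq v ≤ 1 → ℓ ≤ f (h₀ + K * h₂) x v) := by
    intro K
    induction K with
    | zero =>
      refine ⟨c₁ * (c / 4), by positivity, ℓ₀, hℓ₀, fun T f hf hU hini => ?_⟩
      have hf' : IsClassicalSol T (fun t x v => δ * landauQ γ (f t x) v) f := hf
      -- the cylinders
      have hcyl : ∀ x₀ : Vec d, ∃ v₀, nsq v₀ ≤ V ^ 2 ∧ ∀ t ∈ Ico 0 T, t ≤ h₀ → ∀ x v,
          nsq (x - x₀ - t • v₀) ≤ (r / 4) ^ 2 → nsq (v - v₀) ≤ (r / 4) ^ 2 → c / 4 ≤ f t x v := by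
        intro x₀
        obtain ⟨v₀, hv₀, hi⟩ := hini x₀
        refine ⟨v₀, hv₀, fun t ht hth x v hx hv => ?_⟩
        refine hper T f hf hU 0 le_rfl x₀ v₀ c hc hv₀ (fun y w hy hw => hi y w (by nlinarith)) t
          ht.1 ht.2 (by linarith) x v ?_ ?_
        · rw [sub_zero]
          refine hx.trans (le_of_eq ?_)
          ring
        · refine hv.trans (le_of_eq ?_)
          ring
      constructor
      · intro t ht hth x
        obtain ⟨v₀, hv₀, hi⟩ := hcyl x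
        have e1 : t ≤ h₀ := by simpa using hth
        refine hm₁ (f t) (Pool.Agent.H15.AV.sol_slice hf' ht) x v₀ (c / 4) (by positivity)
          fun v hv => hi t ht e1 x v ?_ hv
        rw [sub_self, zero_sub]
        have e2 : nsq (-(t • v₀)) = nsq (t • v₀) := by
          unfold nsq
          simp
        rw [e2]
        refine mass_small ht.1 hv₀ hV ?_
        calc t * V ≤ h₀ * V := mul_le_mul_of_nonneg_right e1 hV
          _ ≤ r / 4 / 2 ^ n := hh₀V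
          _ ≤ r / 4 := div_le_self (by positivity) (one_le_pow₀ (by norm_num))
      · intro hT x v hv
        have hT' : h₀ < T := by simpa using hT
        obtain ⟨v₀, hv₀, hi⟩ := hcyl x
        have e3 := hgr T f hf hU 0 le_rfl (by rw [zero_add]; exact hT') x v₀ hv₀
          (fun t ht y w hy hw => hi t ⟨ht.1, by linarith [ht.2]⟩ (by linarith [ht.2]) y w
            (by rwa [sub_zero] at hy) hw) x v (by
            rw [sub_self, zero_sub]
            have e2 : nsq (-(h₀ • v₀)) = nsq (h₀ • v₀) := by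
              unfold nsq
              simp
            rw [e2]
            exact mass_small hh₀.le hv₀ hV hh₀V) (mass_ball_in hV hv hv₀ hn')
        simpa using e3
    | succ K ih =>
      obtain ⟨m, hm, ℓ, hℓ, hK⟩ := ih
      obtain ⟨ℓ', hℓ', hg⟩ := groL (d := d) hd h1 h2 hδ U (r := 1 / 2) (ρ := 1 / 2) (V := 0)
        (h := h₂) (ℓ := ℓ / 4) (by norm_num) (by norm_num) le_rfl hh₂ (by positivity)
      refine ⟨min m (c₂ * (ℓ / 4)), lt_min hm (by positivity), ℓ', hℓ', fun T f hf hU hini => ?_⟩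
      obtain ⟨k1, k2⟩ := hK T f hf hU hini
      have hf' : IsClassicalSol T (fun t x v => δ * landauQ γ (f t x) v) f := hf
      have hta : 0 ≤ h₀ + K * h₂ := by positivity
      have e0 : h₀ + ((K + 1 : ℕ) : ℝ) * h₂ = h₀ + K * h₂ + h₂ := by
        push_cast
        ring
      have hball : ∀ t, h₀ + K * h₂ ≤ t → t < T → t ≤ h₀ + K * h₂ + h₂ → ∀ x v,
          nsq v ≤ (1 / 2) ^ 2 → ℓ / 4 ≤ f t x v := by
        intro t htK htT hth x v hv
        have hlow := k2 (htK.trans_lt htT)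
        refine hper2 T f hf hU (h₀ + K * h₂) hta x 0 ℓ hℓ (by rw [hz]; norm_num)
          (fun y w _ hw => hlow y w (by rw [sub_zero] at hw; linarith)) t htK htT hth x v ?_ ?_
        · rw [smul_zero, sub_zero, sub_self, hz]
          norm_num
        · rw [sub_zero]
          refine hv.trans (le_of_eq ?_)
          ring
      constructor
      · intro t ht hth x
        rcases le_total t (h₀ + K * h₂) with h | h
        · exact (min_le_left _ _).trans (k1 t ht h x)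
        · refine (min_le_right _ _).trans ?_
          rw [e0] at hth
          refine hm₂ (f t) (Pool.Agent.H15.AV.sol_slice hf' ht) x 0 (ℓ / 4) (by positivity)
            fun v hv => hball t h ht.2 hth x v ?_
          rwa [sub_zero] at hv
      · intro hT x v hv
        rw [e0] at hT ⊢
        refine hg T f hf hU (h₀ + K * h₂) hta hT x 0 (by rw [hz]; norm_num)
          (fun t ht y w _ hw => hball t ht.1 (ht.2.trans_lt hT) ht.2 y w (by rwa [sub_zero] at hw))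
          (h₀ + K * h₂ + h₂) ⟨by linarith, le_rfl⟩ x v ?_ ?_
        · rw [smul_zero, sub_zero, sub_self, hz]
          norm_num
        · rw [sub_zero]
          refine hv.trans (le_of_eq ?_)
          norm_num
  obtain ⟨K, hK⟩ := exists_nat_gt (T₀ / h₂)
  obtain ⟨m, hm, ℓ, hℓ, hmain⟩ := main K
  refine ⟨m, hm, fun T f hf hU hini t ht htT₀ x => (hmain T f hf hU hini).1 t ht ?_ x⟩
  have h5 : T₀ < K * h₂ := by rwa [div_lt_iff₀ hh₂] at hK
  linarith

end Pool.Agent.H85.LN
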