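import Pool.Agent.H82.LL.HitW
import Pool.Agent.H85.LN.MassL
import Pool.Agent.H85.HW.PosX

/-!
# Landau case: early times for oscillating data (EarlyW)
-/

set_option autoImplicit false

open MeasureTheory Set Filter Topology Pool.Agent.H25.Kin Pool.Agent.H48.PR
open Pool.Agent.H48.LV (LSol EarlyW)
open Pool.Agent.H37.LN (DC)
open Pool.Agent.H85.HW (Sch2 avX)

namespace Pool.Agent.H85.LN

variable {d : ℕ} {γ : ℝ}

theorem earlyW (hd : 2 ≤ d) (h1 : -2 < γ) (h2 : γ ≤ 0) : EarlyW d γ := by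
  intro h hh hn hv B
  obtain ⟨U₁, hU⟩ := Pool.Agent.H82.LL.hitW hd h1 h2 hh hn hv B
  obtain ⟨c, hc, hp⟩ := Pool.Agent.H85.HW.pos2 hh hv
  refine ⟨U₁, fun ε hε τ hτ => ?_⟩
  obtain ⟨τ', hτ', ε₁, hε₁, n₀, hN⟩ := hU ε hε (min τ 1) (lt_min hτ one_pos)
  refine ⟨τ', ⟨hτ'.1, hτ'.2.trans (min_le_left _ _)⟩, min ε₁ (c / 4), lt_min hε₁ (by positivity), n₀, ?_⟩
  intro N hNn
  obtain ⟨r, V, hr, hV, hball⟩ := Pool.Agent.H85.HW.pos_n hh hc hp N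
  obtain ⟨m₀, hm₀, hm⟩ := mass_lowL (d := d) hd h1 h2 one_pos U₁ (c := c / 4) (by positivity) hr hV 1
  refine ⟨m₀, hm₀, ?_⟩
  intro T f hf hB hclose
  obtain ⟨h3, h4⟩ := hN N hNn T f hf hB fun x v => (hclose x v).trans (min_le_left _ _)
  refine ⟨fun t ht htτ => ?_, h4⟩
  have htt : t < 2 * τ' := by linarith [hτ'.1]
  refine ⟨h3 t ht htt, fun x => ?_⟩
  have hf' : LSol γ 1 (min T (2 * τ')) f := lsol_restrict (lsol_one hf) (min_le_left _ _)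
  have hinit : ∀ x, ∃ v₀, nsq v₀ ≤ V ^ 2 ∧ ∀ y w, nsq (y - x) + nsq (w - v₀) ≤ r ^ 2 → c / 4 ≤ f 0 y w := by
    intro x
    obtain ⟨v₀, h5, h6⟩ := hball x
    refine ⟨v₀, h5, fun y w hyw => ?_⟩
    have h7 := h6 y w hyw
    have h8 := (hclose y w).trans (min_le_right _ _)
    have h9 := (abs_le.1 h8).1
    linarith
  exact hm _ f hf' (fun t' ht' => h3 t' ⟨ht'.1, ht'.2.trans_le (min_le_left _ _)⟩
    (ht'.2.trans_le (min_le_right _ _))) hinit t ⟨ht.1, lt_min ht.2 htt⟩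
    (htτ.trans (hτ'.2.trans (min_le_right _ _))) x

end Pool.Agent.H85.LN
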