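import Pool.Agent.H85.LN.Op
import Pool.Agent.H82.BK.Touch
import Pool.Agent.H48.PI.Shift

/-!
# Landau case: propagation of decay constants on short times (`δ t` bounded)

`prp_gen`: `first_touch` with `B(t) = D₀ exp(L δ t)`, `op_touch` at the touching point. `prpL` (from the data only), `prpLS` (from a bound `f ≤ A Wp (d+10)`).
-/

set_option autoImplicit false

open MeasureTheory Set Filter Topology Pool.Agent.H25.Kin Pool.Agent.H48.PR Pool.Agent.H48.LN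
open Pool.Agent.H82.BK (first_touch char_deriv)
open Pool.Agent.H48.LV (LSol)
open Pool.Agent.H37.LN (DC PrpL)

namespace Pool.Agent.H85.LN

variable {d : ℕ} {γ : ℝ}

/-- the derivative at a touching point -/
theorem der_touch {g : ℝ → ℝ} {g' : ℝ} (hg : HasDerivAt g g' 0) (h0 : g 0 = 0)
    (h : ∀ᶠ τ in 𝓝[>] (0 : ℝ), 0 ≤ g (-τ)) : g' ≤ 0 := by
  have h1 : HasDerivAt (fun τ : ℝ => -g (-τ)) g' 0 := by
    have hn : HasDerivAt (fun τ : ℝ => -τ) (-1) 0 := hasDerivAt_neg' (0 : ℝ)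
    have hd' : HasDerivAt g g' (-(0 : ℝ)) := by rwa [neg_zero]
    have h3 := (hd'.comp (0 : ℝ) hn).neg
    rw [mul_neg, mul_one, neg_neg] at h3
    exact h3
  have h2 := h1.tendsto_slope_zero_right
  refine le_of_tendsto h2 ?_
  filter_upwards [h, self_mem_nhdsWithin] with τ h3 h4
  have h4' : 0 < τ := h4
  rw [zero_add, smul_eq_mul, neg_zero, h0, neg_zero, sub_zero]
  exact mul_nonpos_of_nonneg_of_nonpos (inv_nonneg.2 h4'.le) (by linarith)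

/-- pointwise decay from a weighted bound -/
theorem mul_le_abs {q : ℕ} {v : Vec d} {a c : ℝ} (ha : 0 ≤ a) (h : (1 + ‖v‖) ^ (2 * q) * a ≤ c) :
    a * (1 + nsq v) ^ q ≤ ((d : ℝ) + 1) ^ q * |c| := by
  have hn := norm_nonneg v
  have h2 : 1 + nsq v ≤ ((d : ℝ) + 1) * (1 + ‖v‖) ^ 2 := by
    have h3 := sq_le v
    have h4 : (0 : ℝ) ≤ d := Nat.cast_nonneg _
    nlinarith [mul_nonneg h4 hn]
  have h5 : (1 + nsq v) ^ q ≤ ((d : ℝ) + 1) ^ q * (1 + ‖v‖) ^ (2 * q) := by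
    rw [pow_mul, ← mul_pow]
    exact pow_le_pow_left₀ (by have := sq_nonneg' v; linarith) h2 q
  calc a * (1 + nsq v) ^ q ≤ a * (((d : ℝ) + 1) ^ q * (1 + ‖v‖) ^ (2 * q)) :=
        mul_le_mul_of_nonneg_left h5 ha
    _ = ((d : ℝ) + 1) ^ q * ((1 + ‖v‖) ^ (2 * q) * a) := by ring
    _ ≤ ((d : ℝ) + 1) ^ q * |c| := by
        gcongr
        exact h.trans (le_abs_self c)

/-- from the product to the weight -/
theorem mul_iff (q : ℕ) (v : Vec d) (a c : ℝ) : a * (1 + nsq v) ^ q ≤ c ↔ a ≤ c * Wp q v := by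
  have h6 : 0 < (1 + nsq v) ^ q := by
    have := sq_nonneg' v
    positivity
  rw [Wp, ← div_eq_mul_inv, le_div_iff₀ h6]

/-- decay constants from weighted bounds -/
theorem norm_of_mul {N : ℕ} {v : Vec d} {a c : ℝ} (ha : 0 ≤ a) (h : a * (1 + nsq v) ^ N ≤ c) :
    (1 + ‖v‖) ^ N * a ≤ 2 ^ N * c := by
  have h0 := norm_nonneg v
  have h1 : (1 + ‖v‖) ^ 2 ≤ 2 * (1 + nsq v) := by
    have := norm_sq_le_sq v
    nlinarith [sq_nonneg (1 - ‖v‖)]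
  have h4 : 1 + ‖v‖ ≤ 2 * (1 + nsq v) := by nlinarith
  have h5 : (1 + ‖v‖) ^ N ≤ 2 ^ N * (1 + nsq v) ^ N := by
    rw [← mul_pow]
    exact pow_le_pow_left₀ (by linarith) h4 N
  calc (1 + ‖v‖) ^ N * a ≤ 2 ^ N * (1 + nsq v) ^ N * a := mul_le_mul_of_nonneg_right h5 ha
    _ = 2 ^ N * (a * (1 + nsq v) ^ N) := by ring
    _ ≤ 2 ^ N * c := mul_le_mul_of_nonneg_left h (by positivity)

/-- restriction of the time interval -/
theorem lsol_restrict {δ T T' : ℝ} {f : ℝ → Vec d → Vec d → ℝ} (hf : LSol γ δ T f) (h : T' ≤ T) :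
    LSol γ δ T' f where
  nonneg _ ht x v := hf.nonneg _ ⟨ht.1, lt_of_lt_of_le ht.2 h⟩ x v
  periodic _ ht x v i := hf.periodic _ ⟨ht.1, lt_of_lt_of_le ht.2 h⟩ x v i
  isCont := ContinuousOn.mono hf.isCont (prod_mono_left (Ico_subset_Ico_right h))
  isC2 := ContDiffOn.mono hf.isC2 (prod_mono_left (Ioo_subset_Ioo_right h))
  decay T₁ hT₁ N := hf.decay T₁ (lt_of_lt_of_le hT₁ h) N
  decay12 T₀ hT₀ T₁ hT₁ N := hf.decay12 T₀ hT₀ T₁ (lt_of_lt_of_le hT₁ h) N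
  solves t ht x v := hf.solves t ⟨ht.1, lt_of_lt_of_le ht.2 h⟩ x v

theorem lsol_one {T : ℝ} {f : ℝ → Vec d → Vec d → ℝ} (hf : IsLandauSol γ T f) : LSol γ 1 T f where
  nonneg := hf.nonneg
  periodic := hf.periodic
  isCont := hf.isCont
  isC2 := hf.isC2
  decay := hf.decay
  decay12 := hf.decay12
  solves t ht x v := by
    rw [one_mul]
    exact hf.solves t ht x v

/-- propagation of one weight -/
theorem prp_gen (hd : 2 ≤ d) (h1 : -2 < γ) (h2 : γ ≤ 0) {q : ℕ} (hq : d + 2 ≤ q) (N : ℕ) :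
    ∃ K : ℝ, 0 ≤ K ∧ ∀ (δ T : ℝ) (f : ℝ → Vec d → Vec d → ℝ), 0 < δ → LSol γ δ T f →
      ∀ A L D₀ : ℝ, 0 < D₀ → K * A < L → (∀ x v, f 0 x v * (1 + nsq v) ^ N < D₀) →
      (∀ t ∈ Ioo 0 T, (∀ x v, f t x v ≤ D₀ * Real.exp (L * δ * t) * Wp N v) →
        ∀ x v, f t x v ≤ A * Wp q v) →
      ∀ t ∈ Ico 0 T, ∀ x v, f t x v * (1 + nsq v) ^ N ≤ D₀ * Real.exp (L * δ * t) := by
  obtain ⟨K, hK, hop⟩ := op_touch (d := d) hd h1 h2 hq N
  refine ⟨K, hK, fun δ T f hδ hf A L D₀ hD₀ hL h0 hA t ht x v => ?_⟩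
  have hf' : IsClassicalSol T (fun t x v => δ * landauQ γ (f t x) v) f := hf
  by_contra hcon
  push Not at hcon
  have hT0 : (0 : ℝ) ∈ Ico 0 T := ⟨le_rfl, ht.1.trans_lt ht.2⟩
  obtain ⟨t₀, ht₀, x₀, v₀, heq, hlt, hle⟩ := first_touch hf' N ht.1 ht.2
    (B := fun t => D₀ * Real.exp (L * δ * t)) (by fun_prop) (fun τ _ => by positivity)
    (fun y w => by
      show f 0 y w * (1 + nsq w) ^ N < D₀ * Real.exp (L * δ * 0)
      rw [mul_zero, Real.exp_zero, mul_one]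
      exact h0 y w)
    ⟨t, ⟨ht.1, le_rfl⟩, x, v, hcon.le⟩
  have ht₀T : t₀ ∈ Ioo 0 T := ⟨ht₀.1, ht₀.2.trans_lt ht.2⟩
  have ht₀C : t₀ ∈ Ico 0 T := ⟨ht₀.1.le, ht₀T.2⟩
  have hN := IsClassicalSol.nice hf' ht₀T x₀
  have hn0 : ∀ w, 0 ≤ f t₀ x₀ w := fun w => hf'.nonneg t₀ ht₀C x₀ w
  have hle' : ∀ x v, f t₀ x v ≤ D₀ * Real.exp (L * δ * t₀) * Wp N v := fun x v =>
    (mul_iff N v _ _).1 (hle x v)
  have hmul := Wp_mul N v₀
  have heq' : f t₀ x₀ v₀ = D₀ * Real.exp (L * δ * t₀) * Wp N v₀ := by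
    have heq2 : f t₀ x₀ v₀ * (1 + nsq v₀) ^ N = D₀ * Real.exp (L * δ * t₀) := heq
    rw [← heq2]
    calc f t₀ x₀ v₀ = f t₀ x₀ v₀ * (Wp N v₀ * (1 + nsq v₀) ^ N) := by rw [hmul, mul_one]
      _ = _ := by ring
  have hup := hop A (f t₀ x₀) hN hn0 (hA t₀ ht₀T hle' x₀) (D₀ * Real.exp (L * δ * t₀)) v₀
    (by positivity) (hle' x₀) heq'
  have hW := Wp_pos N v₀
  -- the derivative along the characteristic
  have hdf := char_deriv hf' ht₀T x₀ v₀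
  have hdB : HasDerivAt (fun τ : ℝ => D₀ * Real.exp (L * δ * (t₀ + τ)) * Wp N v₀)
      (D₀ * (Real.exp (L * δ * (t₀ + 0)) * (L * δ)) * Wp N v₀) 0 := by
    have e1 : HasDerivAt (fun τ : ℝ => L * δ * (t₀ + τ)) (L * δ) 0 := by
      simpa using ((hasDerivAt_id (0 : ℝ)).const_add t₀).const_mul (L * δ)
    exact (e1.exp.const_mul D₀).mul_const _
  have h4 := der_touch (hdB.sub hdf) (by
      show D₀ * Real.exp (L * δ * (t₀ + 0)) * Wp N v₀ - f (t₀ + 0) (x₀ + (0 : ℝ) • v₀) v₀ = 0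
      rw [add_zero, zero_smul, add_zero, heq', sub_self]) (by
      filter_upwards [Ioo_mem_nhdsGT ht₀.1] with τ hτ
      show 0 ≤ D₀ * Real.exp (L * δ * (t₀ + -τ)) * Wp N v₀ -
        f (t₀ + -τ) (x₀ + (-τ) • v₀) v₀
      have h5 := (hlt (t₀ + -τ) ⟨by linarith [hτ.2], by linarith [hτ.1]⟩ (x₀ + (-τ) • v₀) v₀).le
      have h6 := (mul_iff N v₀ _ _).1 h5
      linarith)
  rw [add_zero] at h4
  have h5 : δ * landauQ γ (f t₀ x₀) v₀ ≤
      δ * (K * A * (D₀ * Real.exp (L * δ * t₀)) * Wp N v₀) := mul_le_mul_of_nonneg_left hup hδ.le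
  have h6 : 0 < δ * (D₀ * Real.exp (L * δ * t₀)) * Wp N v₀ := by positivity
  have h7 : 0 < (L - K * A) * (δ * (D₀ * Real.exp (L * δ * t₀)) * Wp N v₀) :=
    mul_pos (by linarith) h6
  nlinarith

/-- from the weights to the decay constants -/
theorem prpLS (hd : 2 ≤ d) (h1 : -2 < γ) (h2 : γ ≤ 0) {q : ℕ} (hq : d + 2 ≤ q) (A θ : ℝ)
    (B : ℕ → ℝ) : ∃ U : ℕ → ℝ, ∀ δ : ℝ, 0 < δ → ∀ T : ℝ, δ * T ≤ θ →
      ∀ f : ℝ → Vec d → Vec d → ℝ, LSol γ δ T f → DC B (f 0) →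
      (∀ t ∈ Ico 0 T, ∀ x v, f t x v ≤ A * Wp q v) → ∀ t ∈ Ico 0 T, DC U (f t) := by
  choose K hK hp using fun N : ℕ => prp_gen (d := d) hd h1 h2 hq N
  refine ⟨fun N => 2 ^ N * ((((d : ℝ) + 1) ^ N * |B (2 * N)| + 1) *
    Real.exp ((K N * |A| + 1) * |θ|)), fun δ hδ T hT f hf hB hA t ht N x v => ?_⟩
  have hT0 : (0 : ℝ) ∈ Ico 0 T := ⟨le_rfl, ht.1.trans_lt ht.2⟩
  have hA' : K N * A < K N * |A| + 1 := by
    have := mul_le_mul_of_nonneg_left (le_abs_self A) (hK N)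
    linarith
  have hD : 0 < ((d : ℝ) + 1) ^ N * |B (2 * N)| + 1 := by positivity
  have h3 := hp N δ T f hδ hf A (K N * |A| + 1) (((d : ℝ) + 1) ^ N * |B (2 * N)| + 1) hD hA'
    (fun y w => by
      have := mul_le_abs (hf.nonneg 0 hT0 y w) (hB (2 * N) y w)
      linarith)
    (fun τ hτ _ y w => hA τ ⟨hτ.1.le, hτ.2⟩ y w) t ht x v
  have h4 : Real.exp ((K N * |A| + 1) * δ * t) ≤ Real.exp ((K N * |A| + 1) * |θ|) := by
    refine Real.exp_le_exp.2 ?_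
    have e1 : δ * t ≤ |θ| := (mul_le_mul_of_nonneg_left ht.2.le hδ.le).trans
      (hT.trans (le_abs_self θ))
    have e2 : 0 ≤ K N * |A| + 1 := by
      have := hK N
      positivity
    calc (K N * |A| + 1) * δ * t = (K N * |A| + 1) * (δ * t) := by ring
      _ ≤ _ := mul_le_mul_of_nonneg_left e1 e2
  exact norm_of_mul (hf.nonneg t ht x v) (h3.trans (mul_le_mul_of_nonneg_left h4 hD.le))

/-- decay constants on a short time interval, from the data only -/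
theorem prpL (hd : 2 ≤ d) (h1 : -2 < γ) (h2 : γ ≤ 0) : PrpL d γ := by
  intro B
  obtain ⟨K, hK, hp⟩ := prp_gen (d := d) hd h1 h2 (q := d + 2) le_rfl (d + 2)
  obtain ⟨D, hD⟩ : ∃ D : ℝ, D = ((d : ℝ) + 1) ^ (d + 2) * |B (2 * (d + 2))| + 1 := ⟨_, rfl⟩
  have hD0 : 0 < D := by
    rw [hD]
    positivity
  obtain ⟨L, hL⟩ : ∃ L : ℝ, L = K * (2 * D) + 1 := ⟨_, rfl⟩
  have hL0 : 0 < L := by
    rw [hL]
    positivity
  obtain ⟨θ, hθ⟩ : ∃ θ : ℝ, θ = Real.log 2 / L := ⟨_, rfl⟩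
  have hθ0 : 0 < θ := by
    rw [hθ]
    exact div_pos (Real.log_pos (by norm_num)) hL0
  obtain ⟨U, hU⟩ := prpLS (d := d) hd h1 h2 (q := d + 2) le_rfl (2 * D) θ B
  refine ⟨θ, hθ0, U, fun T f hf hB t ht htθ => ?_⟩
  obtain ⟨T', hT'⟩ : ∃ T' : ℝ, T' = min T θ := ⟨_, rfl⟩
  have hT'T : T' ≤ T := by
    rw [hT']
    exact min_le_left _ _
  have hT'θ : T' ≤ θ := by
    rw [hT']
    exact min_le_right _ _
  have hf1 : LSol γ 1 T' f := lsol_restrict (lsol_one hf) hT'T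
  have ht' : t ∈ Ico 0 T' := ⟨ht.1, by rw [hT']; exact lt_min ht.2 htθ⟩
  have hT0 : (0 : ℝ) ∈ Ico 0 T' := ⟨le_rfl, ht'.1.trans_lt ht'.2⟩
  have hex : ∀ τ ∈ Ico 0 T', D * Real.exp (L * 1 * τ) ≤ 2 * D := by
    intro τ hτ
    have e1 : L * 1 * τ ≤ Real.log 2 := by
      rw [mul_one]
      have := mul_le_mul_of_nonneg_left (hτ.2.le.trans hT'θ) hL0.le
      rwa [hθ, mul_div_cancel₀ _ hL0.ne'] at this
    have e2 := Real.exp_le_exp.2 e1
    rw [Real.exp_log two_pos] at e2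
    nlinarith
  have hA : ∀ τ ∈ Ico 0 T', ∀ x v, f τ x v ≤ 2 * D * Wp (d + 2) v := by
    intro τ hτ x v
    have h3 := hp 1 T' f one_pos hf1 (2 * D) L D hD0 (by rw [hL]; linarith)
      (fun y w => by
        have := mul_le_abs (hf1.nonneg 0 hT0 y w) (hB (2 * (d + 2)) y w)
        rw [hD]
        linarith)
      (fun s hs h4 y w => (h4 y w).trans
        (mul_le_mul_of_nonneg_right (hex s ⟨hs.1.le, hs.2⟩) (Wp_pos _ w).le)) τ hτ x v
    exact (mul_iff _ v _ _).1 (h3.trans (hex τ hτ))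
  exact hU 1 one_pos T' (by rw [one_mul]; exact hT'θ) f hf1 hB hA t ht'

end Pool.Agent.H85.LN
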