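import Pool.Agent.H82.LL.HitD
import Pool.Agent.H85.LN.MassL
import Pool.Agent.H82.CL.Unif

/-!
# Landau case: early times for dilute gases (EarlyD)
-/

set_option autoImplicit false

open MeasureTheory Set Filter Topology Pool.Agent.H25.Kin Pool.Agent.H48.PR
open Pool.Agent.H48.LV (LSol EarlyD)
open Pool.Agent.H37.LN (DC)
open Pool.Agent.H82.HF (SchT avT)

namespace Pool.Agent.H85.LN

variable {d : ℕ} {γ : ℝ}

theorem earlyD (hd : 2 ≤ d) (h1 : -2 < γ) (h2 : γ ≤ 0) : EarlyD d γ := by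
  intro h hh hn hv B
  have hpt : ∀ x, ∃ v, 0 < h x v := by
    intro x
    by_contra hcon
    push Not at hcon
    have h1 := integral_nonpos (μ := (volume : Measure (Vec d))) (f := fun v => h x v)
      (fun v => hcon v)
    exact absurd (hv x) (not_lt.2 h1)
  obtain ⟨v₀, hv₀⟩ := hpt 0
  obtain ⟨U₁, hU⟩ := Pool.Agent.H82.LL.hitD hd h1 h2 hh hn ⟨0, v₀, hv₀⟩ B
  obtain ⟨c, rr, V, hc, hrr, hrr1, hV, hpos⟩ := Pool.Agent.H82.CL.unif_pos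
    (Pool.Agent.H82.HF.sch_cont hh) (fun v x i => hh.per x v i) hpt
  refine ⟨U₁, fun ε hε => ?_⟩
  obtain ⟨θ, hθ, ε₁, hε₁, δ₀, hδ₀, hδ₀1, hN⟩ := hU ε hε
  refine ⟨θ, hθ, min ε₁ (c / 2), lt_min hε₁ (by positivity), δ₀, hδ₀, hδ₀1, ?_⟩
  intro δ hδ
  obtain ⟨m₀, hm₀, hm⟩ := mass_lowL (d := d) hd h1 h2 hδ.1 U₁ (c := c / 2) (by positivity) hrr hV
    (θ / δ)
  refine ⟨m₀, hm₀, ?_⟩
  intro T f hf hB hclose
  obtain ⟨h3, h4⟩ := hN δ hδ T f hf hB fun x v => (hclose x v).trans (min_le_left _ _)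
  refine ⟨fun t ht htθ => ?_, h4⟩
  refine ⟨h3 t ht htθ, fun x => ?_⟩
  have hf' : LSol γ δ (min T (θ / δ)) f := lsol_restrict hf (min_le_left _ _)
  have hinit : ∀ x, ∃ v₀, nsq v₀ ≤ V ^ 2 ∧ ∀ y w, nsq (y - x) + nsq (w - v₀) ≤ rr ^ 2 → c / 2 ≤ f 0 y w := by
    intro x
    obtain ⟨v₀, h5, h6⟩ := hpos x
    refine ⟨v₀, h5, fun y w hyw => ?_⟩
    have h7 := h6 y w hyw
    have h8 := (hclose y w).trans (min_le_right _ _)
    have h9 := (abs_le.1 h8).1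
    linarith
  exact hm _ f hf' (fun t' ht' => h3 t' ⟨ht'.1, ht'.2.trans_le (min_le_left _ _)⟩
    (ht'.2.trans_le (min_le_right _ _))) hinit t ⟨ht.1, lt_min ht.2 htθ⟩ htθ.le x

end Pool.Agent.H85.LN
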