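import Pool.Agent.H85.LN.Cmp
import Pool.Agent.H48.LN.CoA
import Pool.Agent.H48.LN.AbU
import Pool.Agent.H48.PI.HydU
import Pool.Agent.H85.LB.MassB

/-!
# Landau case: bounds of the coefficients along a solution, second derivatives of the barriers
-/

set_option autoImplicit false

open MeasureTheory Set Filter Topology Pool.Agent.H25.Kin Pool.Agent.H48.PR Pool.Agent.H48.LN
open Pool.Agent.H48.LV (LSol)
open Pool.Agent.H15.AV (ab Good)
open Pool.Agent.H37.LN (DC)

namespace Pool.Agent.H85.LN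

variable {d : ℕ} {γ : ℝ}

/-- bounds of the coefficients along a solution -/
theorem coef (hd : 2 ≤ d) (h1 : -2 < γ) (h2 : γ ≤ 0) (U : ℕ → ℝ) {m : ℝ} (hm : 0 < m) :
    ∃ M : ℝ, 0 ≤ M ∧ ∃ c > 0, ∀ (δ T : ℝ) (f : ℝ → Vec d → Vec d → ℝ), LSol γ δ T f →
      (∀ t ∈ Ico 0 T, DC U (f t)) → ∀ t ∈ Ioo 0 T, ∀ x,
      (∀ (i j : Fin d) (v : Vec d), |ab γ (f t x) i j v| ≤ M * (1 + nsq v)) ∧
      (m ≤ ∫ v, f t x v → ∀ v ξ : Vec d,
        c * (1 + nsq v) ^ (γ / 2) * nsq ξ ≤ ∑ i, ∑ j, ab γ (f t x) i j v * (ξ i * ξ j)) := by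
  obtain ⟨M₀, hM₀⟩ := Pool.Agent.H48.PI.hydro_of_U d U
  obtain ⟨c, hc, hco⟩ := coercA (d := d) hd h1 h2 hm M₀
  refine ⟨|2 * (M₀ + M₀)|, abs_nonneg _, c, hc, fun δ T f hf hU t ht x => ?_⟩
  have hf' : IsClassicalSol T (fun t x v => δ * landauQ γ (f t x) v) f := hf
  have ht' : t ∈ Ico 0 T := ⟨ht.1.le, ht.2⟩
  have hN := IsClassicalSol.nice hf' ht x
  have hn0 : ∀ w, 0 ≤ f t x w := fun w => hf'.nonneg t ht' x w
  obtain ⟨k1, k2, k3⟩ := hM₀ T _ f hf' (fun N t ht x v => hU t ht N x v) t ht' x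
  refine ⟨fun i j v => ?_, fun hmt v ξ => hco (f t x) hN hn0 ⟨hmt, k1, k2, k3⟩ v ξ⟩
  have h3 := abU h1 h2 hN hn0 i j v
  have hv := sq_nonneg' v
  have e1 : ∫ w, f t x w * (1 + nsq w) = (∫ w, f t x w) + ∫ w, f t x w * nsq w := by
    rw [← integral_add]
    · refine integral_congr_ae (Eventually.of_forall fun w => ?_)
      show f t x w * (1 + nsq w) = f t x w + f t x w * nsq w
      ring
    · exact hN.rd.integrable hN.cont.aestronglyMeasurable
    · exact (hN.rd.mul_PG PG.nsq).integrable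
        (hN.cont.mul (by unfold nsq; fun_prop)).aestronglyMeasurable
  rw [e1] at h3
  have h4 : 2 * (1 + nsq v) * ((∫ w, f t x w) + ∫ w, f t x w * nsq w) ≤
      2 * (1 + nsq v) * (M₀ + M₀) := mul_le_mul_of_nonneg_left (by linarith) (by linarith)
  calc |ab γ (f t x) i j v| ≤ 2 * (1 + nsq v) * (M₀ + M₀) := h3.trans h4
    _ = 2 * (M₀ + M₀) * (1 + nsq v) := by ring
    _ ≤ |2 * (M₀ + M₀)| * (1 + nsq v) := mul_le_mul_of_nonneg_right (le_abs_self _) (by linarith)

/-- `nsq` on a coordinate line -/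
theorem nsq_line (z : Vec d) (j : Fin d) (s : ℝ) :
    nsq (z + s • (Pi.single j (1 : ℝ) : Vec d)) = nsq z + 2 * s * z j + s ^ 2 := by
  unfold nsq
  have h : ∀ i : Fin d, (z + s • (Pi.single j (1 : ℝ) : Vec d)) i ^ 2 =
      z i ^ 2 + (if i = j then 2 * s * z j + s ^ 2 else 0) := by
    intro i
    by_cases hi : i = j
    · subst hi
      simp only [Pi.add_apply, Pi.smul_apply, Pi.single_eq_same, smul_eq_mul, if_true]
      ring
    · simp [hi]
  simp_rw [h]
  rw [Finset.sum_add_distrib, Finset.sum_ite_eq' Finset.univ j]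
  simp only [Finset.mem_univ, if_true]
  ring

/-- partial derivatives from lines -/
theorem pd_line {g : Vec d → ℝ} {j : Fin d} {v : Vec d} {g' : ℝ} (hg : DifferentiableAt ℝ g v)
    (h : HasDerivAt (fun s : ℝ => g (v + s • (Pi.single j (1 : ℝ) : Vec d))) g' 0) :
    pd j g v = g' := by
  have h1 : HasDerivAt (fun s : ℝ => g (v + s • (Pi.single j (1 : ℝ) : Vec d)))
      (fderiv ℝ g v (Pi.single j 1)) 0 := by
    have h2 : HasDerivAt (fun s : ℝ => v + s • (Pi.single j (1 : ℝ) : Vec d))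
        (Pi.single j (1 : ℝ) : Vec d) 0 := by
      have := ((hasDerivAt_id (0 : ℝ)).smul_const (Pi.single j (1 : ℝ) : Vec d)).const_add v
      simpa using this
    have h3 : HasFDerivAt g (fderiv ℝ g v) (v + (0 : ℝ) • (Pi.single j (1 : ℝ) : Vec d)) := by
      rw [zero_smul, add_zero]
      exact hg.hasFDerivAt
    exact h3.comp_hasDerivAt 0 h2
  exact h1.unique h

private lemma bar_nsq_der (u v : Vec d) (j : Fin d) :
    HasDerivAt (fun s : ℝ => nsq (v + s • (Pi.single j (1 : ℝ) : Vec d) - u))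
      (2 * (v j - u j)) 0 := by
  have e : (fun s : ℝ => nsq (v + s • (Pi.single j (1 : ℝ) : Vec d) - u)) =
      fun s : ℝ => nsq (v - u) + 2 * s * (v j - u j) + s ^ 2 := by
    funext s
    have e2 : v + s • (Pi.single j (1 : ℝ) : Vec d) - u =
        (v - u) + s • (Pi.single j (1 : ℝ) : Vec d) := by abel
    rw [e2, nsq_line]
    rfl
  rw [e]
  have h6 := (((hasDerivAt_id (0 : ℝ)).const_mul 2).mul_const (v j - u j)).const_add (nsq (v - u))
  have h7 := h6.add ((hasDerivAt_id (0 : ℝ)).pow 2)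
  exact h7.congr_deriv (g' := 2 * (v j - u j)) (by simp)

private lemma bar_coord_der (u v : Vec d) (i j : Fin d) :
    HasDerivAt (fun s : ℝ => (v + s • (Pi.single i (1 : ℝ) : Vec d)) j - u j)
      (if i = j then 1 else 0) 0 := by
  have e : (fun s : ℝ => (v + s • (Pi.single i (1 : ℝ) : Vec d)) j - u j) =
      fun s : ℝ => v j - u j + s * (if i = j then 1 else 0) := by
    funext s
    by_cases h : i = j
    · subst h
      simp
      ring
    · simp [h, Pi.single_apply, Ne.symm h]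
  rw [e]
  simpa using ((hasDerivAt_id (0 : ℝ)).mul_const (if i = j then (1 : ℝ) else 0)).const_add (v j - u j)

theorem nsq_smooth (u : Vec d) : ContDiff ℝ 2 fun v : Vec d => nsq (v - u) := by
  unfold nsq
  fun_prop

/-- second derivatives of the quadratic barrier -/
theorem pd_quad (a b : ℝ) (u : Vec d) (i j : Fin d) (v : Vec d) :
    pd i (pd j fun w : Vec d => a - b * nsq (w - u)) v = -(2 * b) * (if i = j then 1 else 0) := by
  have hs : ContDiff ℝ 2 fun w : Vec d => a - b * nsq (w - u) :=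
    contDiff_const.sub (contDiff_const.mul (nsq_smooth u))
  have e1 : (pd j fun w : Vec d => a - b * nsq (w - u)) = fun w : Vec d => -(2 * b) * (w j - u j) := by
    funext w
    refine pd_line (hs.differentiable (by norm_num) w) ?_
    exact (((bar_nsq_der u w j).const_mul b).const_sub a).congr_deriv (by ring)
  rw [e1]
  refine pd_line (by fun_prop) ?_
  exact (bar_coord_der u v i j).const_mul _

/-- second derivatives of the exponential barrier -/
theorem pd_exp (a b k : ℝ) (u : Vec d) (i j : Fin d) (v : Vec d) :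
    pd i (pd j fun w : Vec d => a * Real.exp (-(k * nsq (w - u))) - b) v =
      a * Real.exp (-(k * nsq (v - u))) * (4 * k ^ 2 * ((v i - u i) * (v j - u j)) -
        2 * k * (if i = j then 1 else 0)) := by
  have hE : ContDiff ℝ 2 fun w : Vec d => a * Real.exp (-(k * nsq (w - u))) :=
    contDiff_const.mul (Real.contDiff_exp.comp (contDiff_const.mul (nsq_smooth u)).neg)
  have hs : ContDiff ℝ 2 fun w : Vec d => a * Real.exp (-(k * nsq (w - u))) - b :=
    hE.sub contDiff_const
  have dE : ∀ (w : Vec d) (l : Fin d), HasDerivAt (fun s : ℝ => a * Real.exp (-(k *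
      nsq (w + s • (Pi.single l (1 : ℝ) : Vec d) - u))))
      (a * Real.exp (-(k * nsq (w - u))) * (-(2 * k * (w l - u l)))) 0 := by
    intro w l
    have h3 := ((((bar_nsq_der u w l).const_mul k).neg).exp).const_mul a
    refine h3.congr_deriv ?_
    simp only [zero_smul, add_zero, Pi.neg_apply]
    ring
  have e1 : (pd j fun w : Vec d => a * Real.exp (-(k * nsq (w - u))) - b) =
      fun w : Vec d => a * Real.exp (-(k * nsq (w - u))) * (-(2 * k * (w j - u j))) := by
    funext w
    refine pd_line (hs.differentiable (by norm_num) w) ?_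
    exact (dE w j).sub_const b
  rw [e1]
  refine pd_line ?_ ?_
  · exact (hE.differentiable (by norm_num) v).mul (by fun_prop)
  · have h4 := (dE v i).mul (((bar_coord_der u v i j).const_mul (2 * k)).neg)
    refine h4.congr_deriv ?_
    simp only [zero_smul, add_zero, Pi.neg_apply]
    ring

end Pool.Agent.H85.LN
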