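import Pool.Agent.H85.LN.Prp

/-!
# Landau case: comparison with a lower barrier

First contact of `f` with `φ - ε`, `ε` = the violation at some point; `ctr_nonpos` at the point of contact.
-/

set_option autoImplicit false

open MeasureTheory Set Filter Topology Pool.Agent.H25.Kin Pool.Agent.H48.PR Pool.Agent.H48.LN
open Pool.Agent.H82.BK (char_deriv)
open Pool.Agent.H48.LV (LSol)

namespace Pool.Agent.H85.LN

variable {d : ℕ} {γ : ℝ}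

/-- comparison with a lower barrier -/
theorem low_cmp (hd : 2 ≤ d) (h1 : -2 < γ) (h2 : γ ≤ 0) {δ T : ℝ} (hδ : 0 < δ)
    {f : ℝ → Vec d → Vec d → ℝ} (hf : LSol γ δ T f) {ta tb : ℝ} (h0 : 0 ≤ ta) (htb : tb < T)
    {φ φ' : ℝ → Vec d → Vec d → ℝ}
    (hc : Continuous fun p : ℝ × Vec d × Vec d => φ p.1 p.2.1 p.2.2)
    (hv : ∀ t x, ContDiff ℝ 2 (φ t x))
    (hdr : ∀ t x v, HasDerivAt (fun τ : ℝ => φ (t + τ) (x + τ • v) v) (φ' t x v) 0)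
    {R : ℝ} (hR : ∀ t ∈ Icc ta tb, ∀ x v, 0 < φ t x v → ‖x‖ ≤ R ∧ ‖v‖ ≤ R)
    (hin : ∀ x v, φ ta x v ≤ f ta x v)
    (hop : ∀ t ∈ Ioc ta tb, ∀ x v, f t x v < φ t x v → φ' t x v < δ * ctr γ (f t x) (φ t x) v) :
    ∀ t ∈ Icc ta tb, ∀ x v, φ t x v ≤ f t x v := by
  have hf' : IsClassicalSol T (fun t x v => δ * landauQ γ (f t x) v) f := hf
  intro t₁ ht₁ x₁ v₁
  by_contra hcon
  push Not at hcon
  obtain ⟨ε, hε⟩ : ∃ ε : ℝ, ε = φ t₁ x₁ v₁ - f t₁ x₁ v₁ := ⟨_, rfl⟩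
  have hε0 : 0 < ε := by
    rw [hε]
    linarith
  have hsub : Icc ta tb ⊆ Ico 0 T := fun t ht => ⟨h0.trans ht.1, ht.2.trans_lt htb⟩
  have hpos : ∀ t ∈ Icc ta tb, ∀ x v, ε ≤ φ t x v - f t x v → 0 < φ t x v := fun t ht x v h => by
    have := hf'.nonneg t (hsub ht) x v
    linarith
  set K : Set (ℝ × Vec d × Vec d) :=
    Icc ta tb ×ˢ (Metric.closedBall (0 : Vec d) R ×ˢ Metric.closedBall (0 : Vec d) R) with hK
  have hKc : IsCompact K := isCompact_Icc.prod ((isCompact_closedBall _ _).prod (isCompact_closedBall _ _))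
  have hfc : ContinuousOn (fun q : ℝ × Vec d × Vec d => f q.1 q.2.1 q.2.2) (Ico 0 T ×ˢ univ) :=
    hf'.isCont
  have hGc : ContinuousOn (fun q : ℝ × Vec d × Vec d => φ q.1 q.2.1 q.2.2 - f q.1 q.2.1 q.2.2) K :=
    hc.continuousOn.sub (hfc.mono fun q hq => ⟨hsub hq.1, mem_univ _⟩)
  set S : Set (ℝ × Vec d × Vec d) :=
    K ∩ (fun q : ℝ × Vec d × Vec d => φ q.1 q.2.1 q.2.2 - f q.1 q.2.1 q.2.2) ⁻¹' Ici ε with hS
  have hSc : IsCompact S := hKc.of_isClosed_subset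
    (hGc.preimage_isClosed_of_isClosed hKc.isClosed isClosed_Ici) inter_subset_left
  have hmem : ∀ t ∈ Icc ta tb, ∀ x v, ε ≤ φ t x v - f t x v → (t, x, v) ∈ S := by
    intro t ht x v h
    obtain ⟨b1, b2⟩ := hR t ht x v (hpos t ht x v h)
    exact ⟨⟨ht, mem_closedBall_zero_iff.2 b1, mem_closedBall_zero_iff.2 b2⟩, h⟩
  have hSn : S.Nonempty := ⟨(t₁, x₁, v₁), hmem t₁ ht₁ x₁ v₁ hε.le⟩
  obtain ⟨p₀, hp₀, hmin⟩ := hSc.exists_isMinOn hSn continuous_fst.continuousOn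
  obtain ⟨t₀, x₀, v₀⟩ := p₀
  have ht₀ : t₀ ∈ Icc ta tb := hp₀.1.1
  have hge : ε ≤ φ t₀ x₀ v₀ - f t₀ x₀ v₀ := hp₀.2
  have hta : ta < t₀ := by
    rcases ht₀.1.lt_or_eq with h | h
    · exact h
    · have h3 := hin x₀ v₀
      rw [← h] at hge
      linarith
  have ht₀T : t₀ ∈ Ioo 0 T := ⟨h0.trans_lt hta, ht₀.2.trans_lt htb⟩
  have hbef : ∀ t ∈ Ico ta t₀, ∀ x v, φ t x v - f t x v < ε := by
    intro t ht x v
    by_contra h
    push Not at h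
    have h3 := hmem t ⟨ht.1, ht.2.le.trans ht₀.2⟩ x v h
    have h4 : t₀ ≤ t := hmin h3
    linarith [ht.2]
  have hle : ∀ x v, φ t₀ x v - f t₀ x v ≤ ε := by
    intro x v
    have c1 : Tendsto (fun t => φ t x v) (𝓝[<] t₀) (𝓝 (φ t₀ x v)) := by
      have e1 : Continuous fun t : ℝ => φ t x v :=
        hc.comp (by fun_prop : Continuous fun t : ℝ => ((t, x, v) : ℝ × Vec d × Vec d))
      exact (e1.tendsto t₀).mono_left nhdsWithin_le_nhds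
    have c2 : Tendsto (fun t => f t x v) (𝓝[<] t₀) (𝓝 (f t₀ x v)) := by
      have e1 : ContinuousWithinAt (fun q : ℝ × Vec d × Vec d => f q.1 q.2.1 q.2.2)
          (Ico 0 T ×ˢ univ) (t₀, x, v) := hfc _ ⟨⟨ht₀T.1.le, ht₀T.2⟩, mem_univ _⟩
      have e2 : Tendsto (fun t : ℝ => ((t, x, v) : ℝ × Vec d × Vec d)) (𝓝[<] t₀)
          (𝓝[Ico 0 T ×ˢ univ] (t₀, x, v)) := by
        refine tendsto_nhdsWithin_iff.2 ⟨?_, ?_⟩
        · exact ((by fun_prop : Continuous fun t : ℝ => ((t, x, v) : ℝ × Vec d × Vec d)).tendsto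
            t₀).mono_left nhdsWithin_le_nhds
        · filter_upwards [Ioo_mem_nhdsLT ht₀T.1] with t ht
          exact ⟨⟨ht.1.le, ht.2.trans ht₀T.2⟩, mem_univ _⟩
      exact e1.tendsto.comp e2
    refine le_of_tendsto (c1.sub c2) ?_
    filter_upwards [Ioo_mem_nhdsLT hta] with t ht
    exact (hbef t ⟨ht.1.le, ht.2⟩ x v).le
  have heq : φ t₀ x₀ v₀ - f t₀ x₀ v₀ = ε := le_antisymm (hle x₀ v₀) hge
  -- the derivative along the characteristic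
  have hdf := char_deriv hf' ht₀T x₀ v₀
  have hd4 := der_touch (g := fun τ : ℝ => ε - (φ (t₀ + τ) (x₀ + τ • v₀) v₀ -
      f (t₀ + τ) (x₀ + τ • v₀) v₀)) (((hdr t₀ x₀ v₀).sub hdf).const_sub ε) (by
      show ε - (φ (t₀ + 0) (x₀ + (0 : ℝ) • v₀) v₀ - f (t₀ + 0) (x₀ + (0 : ℝ) • v₀) v₀) = 0
      rw [add_zero, zero_smul, add_zero, heq, sub_self]) (by
      filter_upwards [Ioo_mem_nhdsGT (show (0 : ℝ) < t₀ - ta by linarith)] with τ hτ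
      have h5 := hbef (t₀ + -τ) ⟨by linarith [hτ.2], by linarith [hτ.1]⟩ (x₀ + (-τ) • v₀) v₀
      show 0 ≤ ε - (φ (t₀ + -τ) (x₀ + (-τ) • v₀) v₀ - f (t₀ + -τ) (x₀ + (-τ) • v₀) v₀)
      linarith)
  have hlt := hop t₀ ⟨hta, ht₀.2⟩ x₀ v₀ (by linarith)
  have hN := IsClassicalSol.nice hf' ht₀T x₀
  have hn0 : ∀ w, 0 ≤ f t₀ x₀ w := fun w => hf'.nonneg t₀ ⟨ht₀T.1.le, ht₀T.2⟩ x₀ w
  have h6 := ctr_nonpos h1 h2 hN hn0 ((hv t₀ x₀).sub hN.smooth) (v := v₀) fun w => by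
    have b1 := hle x₀ w
    show φ t₀ x₀ w - f t₀ x₀ w ≤ φ t₀ x₀ v₀ - f t₀ x₀ v₀
    linarith
  rw [ctr_sub (f t₀ x₀) (hv t₀ x₀) hN.smooth v₀] at h6
  have h7 := landau_nd hd h1 h2 hN v₀
  have h8 := mul_nonneg (cb_nn hd h1 hn0 v₀) (hn0 v₀)
  have h9 : δ * ctr γ (f t₀ x₀) (φ t₀ x₀) v₀ ≤ δ * landauQ γ (f t₀ x₀) v₀ :=
    mul_le_mul_of_nonneg_left (by linarith) hδ.le
  linarith

end Pool.Agent.H85.LN
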