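import Pool.Agent.H85.LN.Per

/-!
# Landau case: lower barriers, growth of the ball of velocities

`φ = ℓ (exp(-κ Q) - exp(-κ))`, `Q = |z|²/(9 r²) + |y|²/ρ² + 1 - (t - ta)/h`, `z = v - v₀`, `y = x - x₀ - (t - ta) v₀`. The ellipticity comes from
the mass of the inner cylinder (`coercA`).
-/

set_option autoImplicit false

open MeasureTheory Set Filter Topology Pool.Agent.H25.Kin Pool.Agent.H48.PR Pool.Agent.H48.LN
open Pool.Agent.H48.LV (LSol)
open Pool.Agent.H15.AV (ab Good)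
open Pool.Agent.H37.LN (DC)

namespace Pool.Agent.H85.LN

variable {d : ℕ} {γ : ℝ}

private lemma gro_ctr (g : Vec d → ℝ) (a b k : ℝ) (v₀ w : Vec d) :
    ctr γ g (fun v => a * Real.exp (-(k * nsq (v - v₀))) - b) w =
      a * Real.exp (-(k * nsq (w - v₀))) *
        (4 * k ^ 2 * ∑ i, ∑ j, ab γ g i j w * ((w - v₀) i * (w - v₀) j) -
          2 * k * ∑ i, ab γ g i i w) := by
  unfold ctr
  have e : ∀ i j : Fin d, ab γ g i j w *
      pd i (pd j fun v => a * Real.exp (-(k * nsq (v - v₀))) - b) w =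
      a * Real.exp (-(k * nsq (w - v₀))) * (4 * k ^ 2 * (ab γ g i j w * ((w - v₀) i * (w - v₀) j)) -
        2 * k * (ab γ g i j w * (if i = j then 1 else 0))) := by
    intro i j
    rw [pd_exp]
    simp only [Pi.sub_apply]
    ring
  simp_rw [e]
  simp_rw [← Finset.mul_sum, Finset.sum_sub_distrib, ← Finset.mul_sum]
  congr 3
  refine Finset.sum_congr rfl fun i _ => ?_
  rw [Finset.sum_eq_single i]
  · rw [if_pos rfl, mul_one]
  · intro j _ hj
    rw [if_neg (Ne.symm hj), mul_zero]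
  · intro h
    exact absurd (Finset.mem_univ i) h

/-- growth of the ball of velocities -/
theorem groL (hd : 2 ≤ d) (h1 : -2 < γ) (h2 : γ ≤ 0) {δ : ℝ} (hδ : 0 < δ) (U : ℕ → ℝ)
    {r ρ V h ℓ : ℝ} (hr : 0 < r) (hρ : 0 < ρ) (hV : 0 ≤ V) (hh : 0 < h) (hℓ : 0 < ℓ) :
    ∃ ℓ' > 0, ∀ (T : ℝ) (f : ℝ → Vec d → Vec d → ℝ), LSol γ δ T f →
      (∀ t ∈ Ico 0 T, DC U (f t)) → ∀ ta, 0 ≤ ta → ta + h < T → ∀ x₀ v₀ : Vec d,
      nsq v₀ ≤ V ^ 2 →
      (∀ t ∈ Icc ta (ta + h), ∀ x v, nsq (x - x₀ - (t - ta) • v₀) ≤ ρ ^ 2 →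
        nsq (v - v₀) ≤ r ^ 2 → ℓ ≤ f t x v) →
      ∀ t ∈ Icc (ta + 3 / 4 * h) (ta + h), ∀ x v, nsq (x - x₀ - (t - ta) • v₀) ≤ ρ ^ 2 / 4 →
        nsq (v - v₀) ≤ (2 * r) ^ 2 → ℓ' ≤ f t x v := by
  obtain ⟨cb, hcb, hmb⟩ := Pool.Agent.H85.LB.mass_ball (d := d) (by omega) hr
  obtain ⟨M, hM, c, hc, hco⟩ := coef (d := d) hd h1 h2 U (m := cb * ℓ) (by positivity)
  obtain ⟨Y, hY⟩ : ∃ Y : ℝ, Y = 2 * (3 * r) ^ 2 + 2 * V ^ 2 := ⟨_, rfl⟩
  have hY0 : 0 ≤ Y := by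
    rw [hY]
    positivity
  obtain ⟨M₁, hM₁⟩ : ∃ M₁ : ℝ, M₁ = M * (1 + Y) := ⟨_, rfl⟩
  have hM₁0 : 0 ≤ M₁ := by
    rw [hM₁]
    positivity
  obtain ⟨lam, hlam⟩ : ∃ lam : ℝ, lam = c * (1 + Y) ^ (γ / 2) := ⟨_, rfl⟩
  have hlam0 : 0 < lam := by
    rw [hlam]
    positivity
  -- the parameter of the barrier
  obtain ⟨κ, hκ⟩ : ∃ κ : ℝ, κ = 81 * r ^ 2 / (4 * lam * δ) *
      (1 / h + 6 * r / ρ + δ * (2 / (9 * r ^ 2)) * (d * M₁) + 1) := ⟨_, rfl⟩
  have hκ0 : 0 < κ := by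
    rw [hκ]
    positivity
  obtain ⟨k, hk⟩ : ∃ k : ℝ, k = κ / (9 * r ^ 2) := ⟨_, rfl⟩
  have hk0 : 0 < k := by
    rw [hk]
    positivity
  have hr2 : 0 < r ^ 2 := by positivity
  have hρ2 : 0 < ρ ^ 2 := by positivity
  have hk9 : k * (9 * r ^ 2) = κ := by
    rw [hk]
    field_simp
  have hgap : 0 < ℓ * (Real.exp (-(κ * (17 / 18))) - Real.exp (-κ)) := by
    refine mul_pos hℓ (sub_pos.2 (Real.exp_lt_exp.2 ?_))
    linarith
  refine ⟨ℓ * (Real.exp (-(κ * (17 / 18))) - Real.exp (-κ)), hgap,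
    fun T f hf hU ta hta hbT x₀ v₀ hv₀ hcyl tb htb x v hx hv => ?_⟩
  have hf' : IsClassicalSol T (fun t x v => δ * landauQ γ (f t x) v) f := hf
  have htab : ta ≤ tb := by
    have : 0 < 3 / 4 * h := by positivity
    linarith [htb.1]
  have htbT : tb < T := htb.2.trans_lt hbT
  -- the barrier as an exponential of `Q`
  have hform : ∀ (t : ℝ) (x v : Vec d),
      ℓ * Real.exp (-(κ * (nsq (x - x₀ - (t - ta) • v₀) / ρ ^ 2 + 1 - (t - ta) / h))) *
        Real.exp (-(k * nsq (v - v₀))) - ℓ * Real.exp (-κ) =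
      ℓ * (Real.exp (-(κ * (nsq (v - v₀) / (9 * r ^ 2) + nsq (x - x₀ - (t - ta) • v₀) / ρ ^ 2 +
        1 - (t - ta) / h))) - Real.exp (-κ)) := by
    intro t x v
    have e1 : -(κ * (nsq (v - v₀) / (9 * r ^ 2) + nsq (x - x₀ - (t - ta) • v₀) / ρ ^ 2 +
        1 - (t - ta) / h)) = -(κ * (nsq (x - x₀ - (t - ta) • v₀) / ρ ^ 2 + 1 - (t - ta) / h)) +
        -(k * nsq (v - v₀)) := by
      rw [hk]
      field_simp
      ring
    rw [e1, Real.exp_add]
    ring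
  -- positivity of the barrier
  have hposQ : ∀ t ∈ Icc ta tb, ∀ x v : Vec d,
      0 < ℓ * Real.exp (-(κ * (nsq (x - x₀ - (t - ta) • v₀) / ρ ^ 2 + 1 - (t - ta) / h))) *
        Real.exp (-(k * nsq (v - v₀))) - ℓ * Real.exp (-κ) →
      nsq (x - x₀ - (t - ta) • v₀) ≤ ρ ^ 2 ∧ nsq (v - v₀) ≤ (3 * r) ^ 2 := by
    intro t ht x v hp
    rw [hform] at hp
    have a1 : Real.exp (-κ) < Real.exp (-(κ * (nsq (v - v₀) / (9 * r ^ 2) +
        nsq (x - x₀ - (t - ta) • v₀) / ρ ^ 2 + 1 - (t - ta) / h))) := by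
      have := (mul_pos_iff_of_pos_left hℓ).1 hp
      linarith
    have a2 := Real.exp_lt_exp.1 a1
    have a3 : nsq (v - v₀) / (9 * r ^ 2) + nsq (x - x₀ - (t - ta) • v₀) / ρ ^ 2 +
        1 - (t - ta) / h < 1 := by
      by_contra hcon
      push Not at hcon
      have := mul_le_mul_of_nonneg_left hcon hκ0.le
      linarith
    have a4 : (t - ta) / h ≤ 1 := by
      rw [div_le_one hh]
      linarith [ht.2, htb.2]
    have a5 : 0 ≤ nsq (v - v₀) / (9 * r ^ 2) := div_nonneg (sq_nonneg' _) (by positivity)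
    have a6 : 0 ≤ nsq (x - x₀ - (t - ta) • v₀) / ρ ^ 2 := div_nonneg (sq_nonneg' _) hρ2.le
    constructor
    · have a7 : nsq (x - x₀ - (t - ta) • v₀) / ρ ^ 2 ≤ 1 := by linarith
      rwa [div_le_one hρ2] at a7
    · have a7 : nsq (v - v₀) / (9 * r ^ 2) ≤ 1 := by linarith
      rw [div_le_one (by positivity)] at a7
      linarith
  have key := low_cmp hd h1 h2 hδ hf hta htbT
    (φ := fun t x v =>
      ℓ * Real.exp (-(κ * (nsq (x - x₀ - (t - ta) • v₀) / ρ ^ 2 + 1 - (t - ta) / h))) *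
        Real.exp (-(k * nsq (v - v₀))) - ℓ * Real.exp (-κ))
    (φ' := fun t x v =>
      ℓ * Real.exp (-(κ * (nsq (x - x₀ - (t - ta) • v₀) / ρ ^ 2 + 1 - (t - ta) / h))) *
        Real.exp (-(k * nsq (v - v₀))) *
          (κ * (1 / h - 2 * dot (x - x₀ - (t - ta) • v₀) (v - v₀) / ρ ^ 2)))
    (R := ρ + ‖x₀‖ + (tb - ta) * ‖v₀‖ + 3 * r + ‖v₀‖) ?_ ?_ ?_ ?_ ?_ ?_ tb ⟨htab, le_rfl⟩ x v
  · refine le_trans ?_ key
    show _ ≤ ℓ * Real.exp (-(κ * (nsq (x - x₀ - (tb - ta) • v₀) / ρ ^ 2 + 1 - (tb - ta) / h))) *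
        Real.exp (-(k * nsq (v - v₀))) - ℓ * Real.exp (-κ)
    rw [hform]
    refine mul_le_mul_of_nonneg_left (sub_le_sub_right (Real.exp_le_exp.2 ?_) _) hℓ.le
    have a1 : nsq (x - x₀ - (tb - ta) • v₀) / ρ ^ 2 ≤ 1 / 4 := by
      rw [div_le_iff₀ hρ2]
      linarith
    have a2 : 3 / 4 ≤ (tb - ta) / h := by
      rw [le_div_iff₀ hh]
      linarith [htb.1]
    have a3 : nsq (v - v₀) / (9 * r ^ 2) ≤ 4 / 9 := by
      rw [div_le_iff₀ (by positivity)]
      linarith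
    have a4 := mul_le_mul_of_nonneg_left (show nsq (v - v₀) / (9 * r ^ 2) +
      nsq (x - x₀ - (tb - ta) • v₀) / ρ ^ 2 + 1 - (tb - ta) / h ≤ 17 / 18 by linarith) hκ0.le
    linarith
  · have c1 : Continuous (nsq : Vec d → ℝ) := by
      unfold nsq
      fun_prop
    fun_prop
  · intro t x
    exact (contDiff_const.mul (Real.contDiff_exp.comp
      (contDiff_const.mul (nsq_smooth v₀)).neg)).sub contDiff_const
  · intro t x v
    have e1 : (fun s : ℝ => ℓ * Real.exp (-(κ * (nsq (x + s • v - x₀ - (t + s - ta) • v₀) / ρ ^ 2 +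
        1 - (t + s - ta) / h))) * Real.exp (-(k * nsq (v - v₀))) - ℓ * Real.exp (-κ)) =
        fun s : ℝ => ℓ * Real.exp (-(κ * (nsq ((x - x₀ - (t - ta) • v₀) + s • (v - v₀)) / ρ ^ 2 +
        1 - (t + s - ta) / h))) * Real.exp (-(k * nsq (v - v₀))) - ℓ * Real.exp (-κ) := by
      funext s
      rw [char_line]
    rw [e1]
    have d1 := (nsq_dir (x - x₀ - (t - ta) • v₀) (v - v₀)).div_const (ρ ^ 2)
    have d2 : HasDerivAt (fun s : ℝ => (t + s - ta) / h) (1 / h) 0 := by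
      have := (((hasDerivAt_id (0 : ℝ)).const_add t).sub_const ta).div_const h
      simpa using this
    have d3 := ((((((d1.add_const 1).sub d2).const_mul κ).neg).exp).const_mul ℓ).mul_const
      (Real.exp (-(k * nsq (v - v₀))))
    have d4 := d3.sub_const (ℓ * Real.exp (-κ))
    refine d4.congr_deriv ?_
    simp only [Pi.neg_apply, Pi.sub_apply, zero_smul, add_zero]
    ring
  · intro t ht y w hpos
    obtain ⟨b1, b2⟩ := hposQ t ht y w hpos
    have b3 := norm_le_of_nsq hρ.le b1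
    have b4 := norm_le_of_nsq (show 0 ≤ 3 * r by positivity) b2
    have b5 : 0 ≤ (t - ta) * ‖v₀‖ := mul_nonneg (by linarith [ht.1]) (norm_nonneg _)
    have b6 : (t - ta) * ‖v₀‖ ≤ (tb - ta) * ‖v₀‖ :=
      mul_le_mul_of_nonneg_right (by linarith [ht.2]) (norm_nonneg _)
    constructor
    · have e1 : y = (y - x₀ - (t - ta) • v₀) + x₀ + (t - ta) • v₀ := by abel
      have e2 : ‖y‖ ≤ ‖y - x₀ - (t - ta) • v₀‖ + ‖x₀‖ + ‖(t - ta) • v₀‖ := by
        calc ‖y‖ = ‖(y - x₀ - (t - ta) • v₀) + x₀ + (t - ta) • v₀‖ := by rw [← e1]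
          _ ≤ _ := norm_add₃_le
      rw [norm_smul, Real.norm_of_nonneg (by linarith [ht.1])] at e2
      have := norm_nonneg v₀
      linarith
    · have e1 : w = (w - v₀) + v₀ := by abel
      have e2 : ‖w‖ ≤ ‖w - v₀‖ + ‖v₀‖ := by
        calc ‖w‖ = ‖(w - v₀) + v₀‖ := by rw [← e1]
          _ ≤ _ := norm_add_le _ _
      have e3 := norm_nonneg x₀
      linarith
  · intro y w
    have c0 := hf'.nonneg ta ⟨hta, htab.trans_lt htbT⟩ y w
    refine le_trans ?_ c0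
    show ℓ * Real.exp (-(κ * (nsq (y - x₀ - (ta - ta) • v₀) / ρ ^ 2 + 1 - (ta - ta) / h))) *
        Real.exp (-(k * nsq (w - v₀))) - ℓ * Real.exp (-κ) ≤ 0
    rw [hform]
    refine mul_nonpos_of_nonneg_of_nonpos hℓ.le (sub_nonpos.2 (Real.exp_le_exp.2 ?_))
    rw [sub_self, zero_div, sub_zero]
    have a5 : 0 ≤ nsq (w - v₀) / (9 * r ^ 2) := div_nonneg (sq_nonneg' _) (by positivity)
    have a6 : 0 ≤ nsq (y - x₀ - (0 : ℝ) • v₀) / ρ ^ 2 := div_nonneg (sq_nonneg' _) hρ2.le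
    have a4 := mul_le_mul_of_nonneg_left (show 1 ≤ nsq (w - v₀) / (9 * r ^ 2) +
      nsq (y - x₀ - (0 : ℝ) • v₀) / ρ ^ 2 + 1 by linarith) hκ0.le
    linarith
  · intro t ht y w hlt
    have htT : t ∈ Ioo 0 T := ⟨hta.trans_lt ht.1, ht.2.trans_lt htbT⟩
    have htI : t ∈ Icc ta (ta + h) := ⟨ht.1.le, ht.2.trans htb.2⟩
    have hf0 := hf'.nonneg t ⟨htT.1.le, htT.2⟩ y w
    have hpos' := hf0.trans_lt hlt
    obtain ⟨b1, b2⟩ := hposQ t ⟨ht.1.le, ht.2⟩ y w hpos'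
    -- outside of the inner ball
    have b3 : r ^ 2 ≤ nsq (w - v₀) := by
      by_contra hcon
      push Not at hcon
      have c1 := hcyl t htI y w b1 hcon.le
      have c2 : ℓ * Real.exp (-(κ * (nsq (y - x₀ - (t - ta) • v₀) / ρ ^ 2 + 1 - (t - ta) / h))) *
        Real.exp (-(k * nsq (w - v₀))) - ℓ * Real.exp (-κ) ≤ ℓ := by
        have e1 : Real.exp (-(κ * (nsq (y - x₀ - (t - ta) • v₀) / ρ ^ 2 + 1 - (t - ta) / h))) ≤ 1 := by
          rw [Real.exp_le_one_iff]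
          have a4 : (t - ta) / h ≤ 1 := by
            rw [div_le_one hh]
            linarith [htI.2]
          have a6 : 0 ≤ nsq (y - x₀ - (t - ta) • v₀) / ρ ^ 2 := div_nonneg (sq_nonneg' _) hρ2.le
          have := mul_nonneg hκ0.le (show 0 ≤ nsq (y - x₀ - (t - ta) • v₀) / ρ ^ 2 + 1 -
            (t - ta) / h by linarith)
          linarith
        have e2 : Real.exp (-(k * nsq (w - v₀))) ≤ 1 := by
          rw [Real.exp_le_one_iff]
          have := mul_nonneg hk0.le (sq_nonneg' (w - v₀))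
          linarith
        have e3 := Real.exp_pos (-κ)
        have e4 : ℓ * Real.exp (-(κ * (nsq (y - x₀ - (t - ta) • v₀) / ρ ^ 2 + 1 -
            (t - ta) / h))) * Real.exp (-(k * nsq (w - v₀))) ≤ ℓ * 1 * 1 :=
          mul_le_mul (mul_le_mul_of_nonneg_left e1 hℓ.le) e2 (Real.exp_pos _).le (by positivity)
        have e5 : 0 ≤ ℓ * Real.exp (-κ) := by positivity
        linarith
      linarith
    have b4 : nsq w ≤ Y := by
      have e1 : w = (w - v₀) + v₀ := by abel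
      have e2 := nsq_add_le (w - v₀) v₀
      rw [← e1] at e2
      rw [hY]
      linarith
    have hmass : cb * ℓ ≤ ∫ v, f t y v := by
      refine hmb (f t) (Pool.Agent.H15.AV.sol_slice hf' ⟨htT.1.le, htT.2⟩) y v₀ ℓ hℓ.le
        fun v hv => hcyl t htI y v b1 hv
    obtain ⟨k1, k2⟩ := hco δ T f hf hU t htT y
    have b5 : ∑ i, ab γ (f t y) i i w ≤ d * M₁ := by
      calc ∑ i, ab γ (f t y) i i w ≤ ∑ _i : Fin d, M₁ := Finset.sum_le_sum fun i _ => by
            have c1 := (le_abs_self _).trans (k1 i i w)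
            have c2 : M * (1 + nsq w) ≤ M₁ := by
              rw [hM₁]
              exact mul_le_mul_of_nonneg_left (by linarith) hM
            linarith
        _ = d * M₁ := by simp
    have b6 : lam * r ^ 2 ≤ ∑ i, ∑ j, ab γ (f t y) i j w * ((w - v₀) i * (w - v₀) j) := by
      have c1 := k2 hmass w (w - v₀)
      have c2 : (1 + Y) ^ (γ / 2) ≤ (1 + nsq w) ^ (γ / 2) := by
        refine Real.rpow_le_rpow_of_nonpos ?_ (by linarith) (by linarith)
        have := sq_nonneg' w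
        linarith
      have c3 : lam * r ^ 2 ≤ c * (1 + nsq w) ^ (γ / 2) * nsq (w - v₀) := by
        rw [hlam]
        exact mul_le_mul (mul_le_mul_of_nonneg_left c2 hc.le) b3 hr2.le
          (mul_nonneg hc.le (Real.rpow_nonneg (by have := sq_nonneg' w; linarith) _))
      linarith
    have b7 := dot_abs_le hρ.le (show 0 ≤ 3 * r by positivity) b1 b2
    have b8 := (abs_le.1 b7).1
    obtain ⟨P, hP⟩ : ∃ P : ℝ, P = ℓ * Real.exp (-(κ * (nsq (y - x₀ - (t - ta) • v₀) / ρ ^ 2 + 1 -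
        (t - ta) / h))) * Real.exp (-(k * nsq (w - v₀))) := ⟨_, rfl⟩
    have hP0 : 0 < P := by
      rw [hP]
      positivity
    show ℓ * Real.exp (-(κ * (nsq (y - x₀ - (t - ta) • v₀) / ρ ^ 2 + 1 - (t - ta) / h))) *
        Real.exp (-(k * nsq (w - v₀))) *
          (κ * (1 / h - 2 * dot (y - x₀ - (t - ta) • v₀) (w - v₀) / ρ ^ 2)) < _
    rw [gro_ctr, ← hP]
    have c1 : -(2 * dot (y - x₀ - (t - ta) • v₀) (w - v₀) / ρ ^ 2) ≤ 6 * r / ρ := by
      rw [← neg_div, div_le_div_iff₀ hρ2 hρ]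
      have := mul_le_mul_of_nonneg_right (show -(2 * dot (y - x₀ - (t - ta) • v₀) (w - v₀)) ≤
        2 * (ρ * (3 * r)) by linarith) hρ.le
      nlinarith
    have c2 : κ * (1 / h - 2 * dot (y - x₀ - (t - ta) • v₀) (w - v₀) / ρ ^ 2) ≤
        κ * (1 / h + 6 * r / ρ) := mul_le_mul_of_nonneg_left (by linarith) hκ0.le
    have c3 : 4 * k ^ 2 * (lam * r ^ 2) - 2 * k * (d * M₁) ≤
        4 * k ^ 2 * ∑ i, ∑ j, ab γ (f t y) i j w * ((w - v₀) i * (w - v₀) j) -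
          2 * k * ∑ i, ab γ (f t y) i i w := by
      have e1 := mul_le_mul_of_nonneg_left b6 (show 0 ≤ 4 * k ^ 2 by positivity)
      have e2 := mul_le_mul_of_nonneg_left b5 (show 0 ≤ 2 * k by positivity)
      linarith
    -- the choice of `κ`
    have c4 : κ * (1 / h + 6 * r / ρ) < δ * (4 * k ^ 2 * (lam * r ^ 2) - 2 * k * (d * M₁)) := by
      have e1 : δ * (4 * k ^ 2 * (lam * r ^ 2) - 2 * k * (d * M₁)) =
          κ * (κ * (4 * lam * δ / (81 * r ^ 2)) - δ * (2 / (9 * r ^ 2)) * (d * M₁)) := by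
        rw [hk]
        field_simp
        ring
      have e2 : κ * (4 * lam * δ / (81 * r ^ 2)) =
          1 / h + 6 * r / ρ + δ * (2 / (9 * r ^ 2)) * (d * M₁) + 1 := by
        rw [hκ]
        field_simp
      rw [e1, e2]
      have e3 : κ * (1 / h + 6 * r / ρ + δ * (2 / (9 * r ^ 2)) * (d * M₁) + 1 -
          δ * (2 / (9 * r ^ 2)) * (d * M₁)) = κ * (1 / h + 6 * r / ρ) + κ := by ring
      rw [e3]
      linarith
    have c5 : P * (κ * (1 / h - 2 * dot (y - x₀ - (t - ta) • v₀) (w - v₀) / ρ ^ 2)) <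
        P * (δ * (4 * k ^ 2 * (lam * r ^ 2) - 2 * k * (d * M₁))) :=
      mul_lt_mul_of_pos_left (c2.trans_lt c4) hP0
    have c6 := mul_le_mul_of_nonneg_left (mul_le_mul_of_nonneg_left c3 hδ.le) hP0.le
    calc P * (κ * (1 / h - 2 * dot (y - x₀ - (t - ta) • v₀) (w - v₀) / ρ ^ 2))
        < P * (δ * (4 * k ^ 2 * (lam * r ^ 2) - 2 * k * (d * M₁))) := c5
      _ ≤ _ := c6
      _ = _ := by ring

end Pool.Agent.H85.LN
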