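import Pool.Agent.H48.LV.Defs
import Pool.Agent.H48.LN.Bd
import Pool.Agent.H48.LN.HsW
import Pool.Agent.H48.LN.Sec
import Pool.Agent.H48.LN.Nd

/-!
# Landau case: the operator at a touching point of a polynomial weight
-/

set_option autoImplicit false

open MeasureTheory Set Filter Topology Pool.Agent.H25.Kin Pool.Agent.H48.PR Pool.Agent.H48.LN
open Pool.Agent.H15.AV (ab)

namespace Pool.Agent.H85.LN

variable {d : ℕ} {γ : ℝ}

/-- upper bound of the linear operator on a polynomial weight -/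
theorem opW (hd : 2 ≤ d) (h1 : -2 < γ) (h2 : γ ≤ 0) {q : ℕ} (hq : d + 2 ≤ q) (N : ℕ) :
    ∃ K : ℝ, 0 ≤ K ∧ ∀ (C : ℝ) (g : Vec d → ℝ), CW q C g → ∀ v : Vec d,
      ctr γ g (Wp N) v + cb γ g v * Wp N v ≤ K * C * Wp N v := by
  obtain ⟨K₁, hK₁, e1⟩ := ab_bd (d := d) h1 h2 hq
  obtain ⟨K₂, hK₂, e2⟩ := cb_bd (d := d) hd h1 h2 hq
  refine ⟨d * (d * (K₁ * (8 * ((N : ℝ) + 1) ^ 2))) + K₂, by positivity, fun C g hg v => ?_⟩
  have hC : 0 ≤ C := by
    have h3 := hg.le 0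
    have h4 := Wp_pos (d := d) q 0
    have h5 := (abs_nonneg _).trans h3
    by_contra hcon
    push Not at hcon
    nlinarith
  have hW := Wp_pos N v
  have hv : 0 < 1 + nsq v := by
    have := sq_nonneg' v
    linarith
  have a1 : ∀ i j : Fin d, ab γ g i j v * pd i (pd j (Wp N)) v ≤
      K₁ * (8 * ((N : ℝ) + 1) ^ 2) * (C * Wp N v) := by
    intro i j
    have b1 := e1 C g hg i j v
    have b2 := wp_pd_le N i j v
    have b3 : |ab γ g i j v * pd i (pd j (Wp N)) v| ≤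
        (K₁ * C * (1 + nsq v)) * (8 * ((N : ℝ) + 1) ^ 2 * (Wp N v / (1 + nsq v))) := by
      rw [abs_mul]
      exact mul_le_mul b1 b2 (abs_nonneg _) (by positivity)
    refine (le_abs_self _).trans (b3.trans (le_of_eq ?_))
    field_simp
  have a2 : ctr γ g (Wp N) v ≤ d * (d * (K₁ * (8 * ((N : ℝ) + 1) ^ 2))) * (C * Wp N v) := by
    unfold ctr
    calc ∑ i, ∑ j, ab γ g i j v * pd i (pd j (Wp N)) v
        ≤ ∑ _i : Fin d, ∑ _j : Fin d, K₁ * (8 * ((N : ℝ) + 1) ^ 2) * (C * Wp N v) :=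
          Finset.sum_le_sum fun i _ => Finset.sum_le_sum fun j _ => a1 i j
      _ = _ := by
          simp only [Finset.sum_const, Finset.card_univ, Fintype.card_fin, nsmul_eq_mul]
          ring
  have a3 : cb γ g v * Wp N v ≤ K₂ * (C * Wp N v) := by
    have b1 := (le_abs_self _).trans (e2 C g hg v)
    have b2 : (1 + nsq v) ^ (γ / 2) ≤ 1 := by
      refine Real.rpow_le_one_of_one_le_of_nonpos ?_ (by linarith)
      have := sq_nonneg' v
      linarith
    have b3 : K₂ * C * (1 + nsq v) ^ (γ / 2) ≤ K₂ * C * 1 :=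
      mul_le_mul_of_nonneg_left b2 (by positivity)
    calc cb γ g v * Wp N v ≤ (K₂ * C * 1) * Wp N v :=
          mul_le_mul_of_nonneg_right (b1.trans b3) hW.le
      _ = _ := by ring
  calc ctr γ g (Wp N) v + cb γ g v * Wp N v
      ≤ d * (d * (K₁ * (8 * ((N : ℝ) + 1) ^ 2))) * (C * Wp N v) + K₂ * (C * Wp N v) :=
        add_le_add a2 a3
    _ = _ := by ring

/-- the operator at a touching point -/
theorem op_touch (hd : 2 ≤ d) (h1 : -2 < γ) (h2 : γ ≤ 0) {q : ℕ} (hq : d + 2 ≤ q) (N : ℕ) :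
    ∃ K : ℝ, 0 ≤ K ∧ ∀ (C : ℝ) (g : Vec d → ℝ), Nice g → (∀ v, 0 ≤ g v) →
      (∀ v, g v ≤ C * Wp q v) → ∀ (D : ℝ) (v : Vec d), 0 ≤ D → (∀ w, g w ≤ D * Wp N w) →
      g v = D * Wp N v → landauQ γ g v ≤ K * C * D * Wp N v := by
  obtain ⟨K, hK, hop⟩ := opW (d := d) hd h1 h2 hq N
  refine ⟨K, hK, fun C g hg h0 hC D v hD hle heq => ?_⟩
  have hcw : CW q C g := ⟨hg.cont, fun w => by
    rw [abs_of_nonneg (h0 w)]
    exact hC w⟩
  have a1 : ctr γ g (fun w => g w - D * Wp N w) v ≤ 0 := by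
    refine ctr_nonpos h1 h2 hg h0 (hg.smooth.sub (contDiff_const.mul (wp_smooth N))) fun w => ?_
    have b1 := hle w
    show g w - D * Wp N w ≤ g v - D * Wp N v
    linarith
  rw [ctr_sub g hg.smooth (contDiff_const.mul (wp_smooth N)) v, ctr_smul g (wp_smooth N) D v] at a1
  rw [landau_nd hd h1 h2 hg v, heq]
  have a2 := mul_le_mul_of_nonneg_left (hop C g hcw v) hD
  have e : D * (ctr γ g (Wp N) v + cb γ g v * Wp N v) =
      D * ctr γ g (Wp N) v + cb γ g v * (D * Wp N v) := by ring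
  calc ctr γ g g v + cb γ g v * (D * Wp N v)
      ≤ D * ctr γ g (Wp N) v + cb γ g v * (D * Wp N v) := by linarith
    _ = D * (ctr γ g (Wp N) v + cb γ g v * Wp N v) := e.symm
    _ ≤ D * (K * C * Wp N v) := a2
    _ = _ := by ring

end Pool.Agent.H85.LN
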