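import Pool.Agent.H85.LN.Bar
import Pool.Agent.H15.AV.Abs

/-!
# Landau case: lower barriers, persistence on cylinders

`φ = ℓ (1 - |y|²/ρ² - E (t - ta)) - (ℓ/r²) |z|²`, `z = v - v₀`, `y = x - x₀ - (t - ta) v₀`.
-/

set_option autoImplicit false

open MeasureTheory Set Filter Topology Pool.Agent.H25.Kin Pool.Agent.H48.PR Pool.Agent.H48.LN
open Pool.Agent.H48.LV (LSol)
open Pool.Agent.H15.AV (ab Good)
open Pool.Agent.H37.LN (DC)

namespace Pool.Agent.H85.LN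

variable {d : ℕ} {γ : ℝ}

theorem nsq_dir (y z : Vec d) : HasDerivAt (fun s : ℝ => nsq (y + s • z)) (2 * dot y z) 0 := by
  have e : (fun s : ℝ => nsq (y + s • z)) = fun s : ℝ => nsq y + 2 * s * dot y z + s ^ 2 * nsq z := by
    funext s
    unfold nsq dot
    rw [Finset.mul_sum, Finset.mul_sum, ← Finset.sum_add_distrib, ← Finset.sum_add_distrib]
    refine Finset.sum_congr rfl fun i _ => ?_
    simp only [Pi.add_apply, Pi.smul_apply, smul_eq_mul]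
    ring
  rw [e]
  have h6 := (((hasDerivAt_id (0 : ℝ)).const_mul 2).mul_const (dot y z)).const_add (nsq y)
  have h7 := h6.add (((hasDerivAt_id (0 : ℝ)).pow 2).mul_const (nsq z))
  exact h7.congr_deriv (g' := 2 * dot y z) (by simp)

theorem dot_abs_le {y z : Vec d} {a b : ℝ} (ha : 0 ≤ a) (hb : 0 ≤ b) (hy : nsq y ≤ a ^ 2)
    (hz : nsq z ≤ b ^ 2) : |dot y z| ≤ a * b := by
  have h1 : dot y z ^ 2 ≤ nsq y * nsq z := by
    unfold dot nsq
    exact Finset.sum_mul_sq_le_sq_mul_sq _ _ _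
  refine abs_le_of_sq_le_sq ?_ (by positivity)
  calc dot y z ^ 2 ≤ nsq y * nsq z := h1
    _ ≤ a ^ 2 * b ^ 2 := mul_le_mul hy hz (sq_nonneg' z) (by positivity)
    _ = _ := by ring

theorem nsq_add_le (z w : Vec d) : nsq (z + w) ≤ 2 * nsq z + 2 * nsq w := by
  unfold nsq
  rw [Finset.mul_sum, Finset.mul_sum, ← Finset.sum_add_distrib]
  refine Finset.sum_le_sum fun i _ => ?_
  simp only [Pi.add_apply]
  nlinarith [sq_nonneg (z i - w i)]

theorem char_line (x x₀ v v₀ : Vec d) (t s ta : ℝ) :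
    x + s • v - x₀ - (t + s - ta) • v₀ = (x - x₀ - (t - ta) • v₀) + s • (v - v₀) := by
  rw [smul_sub, show t + s - ta = (t - ta) + s by ring, add_smul]
  abel

theorem norm_le_of_nsq {z : Vec d} {a : ℝ} (ha : 0 ≤ a) (h : nsq z ≤ a ^ 2) : ‖z‖ ≤ a :=
  (pow_le_pow_iff_left₀ (norm_nonneg z) ha two_ne_zero).1 ((norm_sq_le_sq z).trans h)

/-- persistence of a lower bound -/
theorem perL (hd : 2 ≤ d) (h1 : -2 < γ) (h2 : γ ≤ 0) {δ : ℝ} (hδ : 0 < δ) (U : ℕ → ℝ)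
    {r ρ V : ℝ} (hr : 0 < r) (hρ : 0 < ρ) (hV : 0 ≤ V) :
    ∃ h > 0, ∀ (T : ℝ) (f : ℝ → Vec d → Vec d → ℝ), LSol γ δ T f →
      (∀ t ∈ Ico 0 T, DC U (f t)) → ∀ ta, 0 ≤ ta → ∀ (x₀ v₀ : Vec d) (ℓ : ℝ), 0 < ℓ →
      nsq v₀ ≤ V ^ 2 → (∀ x v, nsq (x - x₀) ≤ ρ ^ 2 → nsq (v - v₀) ≤ r ^ 2 → ℓ ≤ f ta x v) →
      ∀ tb, ta ≤ tb → tb < T → tb ≤ ta + h → ∀ x v, nsq (x - x₀ - (tb - ta) • v₀) ≤ ρ ^ 2 / 4 →
        nsq (v - v₀) ≤ r ^ 2 / 4 → ℓ / 4 ≤ f tb x v := by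
  obtain ⟨M, hM, cel, hcel, hco⟩ := coef (d := d) hd h1 h2 U (m := 1) one_pos
  obtain ⟨M₁, hM₁⟩ : ∃ M₁ : ℝ, M₁ = M * (1 + (2 * r ^ 2 + 2 * V ^ 2)) := ⟨_, rfl⟩
  have hM₁0 : 0 ≤ M₁ := by
    rw [hM₁]
    positivity
  obtain ⟨E, hE⟩ : ∃ E : ℝ, E = 2 * r / ρ + δ * (2 * (d * M₁) / r ^ 2) + 1 := ⟨_, rfl⟩
  have hE0 : 0 < E := by
    rw [hE]
    positivity
  refine ⟨1 / (4 * E), by positivity, fun T f hf hU ta hta x₀ v₀ ℓ hℓ hv₀ hini tb htab htbT htbh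
    x v hx hv => ?_⟩
  have hf' : IsClassicalSol T (fun t x v => δ * landauQ γ (f t x) v) f := hf
  have hr2 : 0 < r ^ 2 := by positivity
  have hρ2 : 0 < ρ ^ 2 := by positivity
  have key := low_cmp hd h1 h2 hδ hf hta htbT
    (φ := fun t x v => ℓ * (1 - nsq (x - x₀ - (t - ta) • v₀) / ρ ^ 2 - (t - ta) * E) -
      ℓ / r ^ 2 * nsq (v - v₀))
    (φ' := fun t x v => ℓ * (-(2 * dot (x - x₀ - (t - ta) • v₀) (v - v₀)) / ρ ^ 2 - E))
    (R := ρ + ‖x₀‖ + (tb - ta) * ‖v₀‖ + r + ‖v₀‖) ?_ ?_ ?_ ?_ ?_ ?_ tb ⟨htab, le_rfl⟩ x v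
  · refine le_trans ?_ key
    have a1 : nsq (x - x₀ - (tb - ta) • v₀) / ρ ^ 2 ≤ 1 / 4 := by
      rw [div_le_iff₀ hρ2]
      linarith
    have a2 : (tb - ta) * E ≤ 1 / 4 := by
      have b1 : tb - ta ≤ 1 / (4 * E) := by linarith
      have b2 := mul_le_mul_of_nonneg_right b1 hE0.le
      have b3 : 1 / (4 * E) * E = 1 / 4 := by field_simp
      linarith
    have a3 : ℓ / r ^ 2 * nsq (v - v₀) ≤ ℓ * (1 / 4) := by
      have b1 := mul_le_mul_of_nonneg_left hv (show 0 ≤ ℓ / r ^ 2 by positivity)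
      have b2 : ℓ / r ^ 2 * (r ^ 2 / 4) = ℓ * (1 / 4) := by field_simp
      linarith
    have a4 : ℓ * (1 / 2) ≤ ℓ * (1 - nsq (x - x₀ - (tb - ta) • v₀) / ρ ^ 2 - (tb - ta) * E) :=
      mul_le_mul_of_nonneg_left (by linarith) hℓ.le
    linarith
  · have c1 : Continuous (nsq : Vec d → ℝ) := by
      unfold nsq
      fun_prop
    fun_prop
  · intro t x
    exact contDiff_const.sub (contDiff_const.mul (nsq_smooth v₀))
  · intro t x v
    have e1 : (fun s : ℝ => ℓ * (1 - nsq (x + s • v - x₀ - (t + s - ta) • v₀) / ρ ^ 2 -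
        (t + s - ta) * E) - ℓ / r ^ 2 * nsq (v - v₀)) = fun s : ℝ =>
        ℓ * (1 - nsq ((x - x₀ - (t - ta) • v₀) + s • (v - v₀)) / ρ ^ 2 - (t + s - ta) * E) -
          ℓ / r ^ 2 * nsq (v - v₀) := by
      funext s
      rw [char_line]
    rw [e1]
    have d1 := (nsq_dir (x - x₀ - (t - ta) • v₀) (v - v₀)).div_const (ρ ^ 2)
    have d2 : HasDerivAt (fun s : ℝ => (t + s - ta) * E) E 0 := by
      have := (((hasDerivAt_id (0 : ℝ)).const_add t).sub_const ta).mul_const E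
      simpa using this
    have d3 := (((d1.const_sub 1).sub d2).const_mul ℓ).sub_const (ℓ / r ^ 2 * nsq (v - v₀))
    refine d3.congr_deriv ?_
    ring
  · intro t ht y w hpos
    have b0 : 0 ≤ (t - ta) * E := mul_nonneg (by linarith [ht.1]) hE0.le
    have b1 : nsq (y - x₀ - (t - ta) • v₀) ≤ ρ ^ 2 := by
      by_contra hcon
      push Not at hcon
      have c1 : 1 ≤ nsq (y - x₀ - (t - ta) • v₀) / ρ ^ 2 := by
        rw [le_div_iff₀ hρ2]
        linarith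
      have c2 : ℓ * (1 - nsq (y - x₀ - (t - ta) • v₀) / ρ ^ 2 - (t - ta) * E) ≤ 0 :=
        mul_nonpos_of_nonneg_of_nonpos hℓ.le (by linarith)
      have c3 : 0 ≤ ℓ / r ^ 2 * nsq (w - v₀) := mul_nonneg (by positivity) (sq_nonneg' _)
      have hpos' : 0 < ℓ * (1 - nsq (y - x₀ - (t - ta) • v₀) / ρ ^ 2 - (t - ta) * E) -
        ℓ / r ^ 2 * nsq (w - v₀) := hpos
      linarith
    have b2 : nsq (w - v₀) ≤ r ^ 2 := by
      by_contra hcon
      push Not at hcon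
      have c1 : 0 ≤ nsq (y - x₀ - (t - ta) • v₀) / ρ ^ 2 := div_nonneg (sq_nonneg' _) hρ2.le
      have c2 : ℓ * (1 - nsq (y - x₀ - (t - ta) • v₀) / ρ ^ 2 - (t - ta) * E) ≤ ℓ * 1 :=
        mul_le_mul_of_nonneg_left (by linarith) hℓ.le
      have c3 : ℓ ≤ ℓ / r ^ 2 * nsq (w - v₀) := by
        have c4 := mul_le_mul_of_nonneg_left hcon.le (show 0 ≤ ℓ / r ^ 2 by positivity)
        have c5 : ℓ / r ^ 2 * r ^ 2 = ℓ := by field_simp
        linarith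
      have hpos' : 0 < ℓ * (1 - nsq (y - x₀ - (t - ta) • v₀) / ρ ^ 2 - (t - ta) * E) -
        ℓ / r ^ 2 * nsq (w - v₀) := hpos
      linarith
    have b3 := norm_le_of_nsq hρ.le b1
    have b4 := norm_le_of_nsq hr.le b2
    have b5 : 0 ≤ (t - ta) * ‖v₀‖ := mul_nonneg (by linarith [ht.1]) (norm_nonneg _)
    have b6 : (t - ta) * ‖v₀‖ ≤ (tb - ta) * ‖v₀‖ :=
      mul_le_mul_of_nonneg_right (by linarith [ht.2]) (norm_nonneg _)
    constructor
    · have e1 : y = (y - x₀ - (t - ta) • v₀) + x₀ + (t - ta) • v₀ := by abel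
      have e2 : ‖y‖ ≤ ‖y - x₀ - (t - ta) • v₀‖ + ‖x₀‖ + ‖(t - ta) • v₀‖ := by
        calc ‖y‖ = ‖(y - x₀ - (t - ta) • v₀) + x₀ + (t - ta) • v₀‖ := by rw [← e1]
          _ ≤ _ := norm_add₃_le
      rw [norm_smul, Real.norm_of_nonneg (by linarith [ht.1])] at e2
      have := norm_nonneg v₀
      linarith
    · have e1 : w = (w - v₀) + v₀ := by abel
      have e2 : ‖w‖ ≤ ‖w - v₀‖ + ‖v₀‖ := by
        calc ‖w‖ = ‖(w - v₀) + v₀‖ := by rw [← e1]
          _ ≤ _ := norm_add_le _ _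
      have e3 := norm_nonneg x₀
      linarith
  · intro y w
    show ℓ * (1 - nsq (y - x₀ - (ta - ta) • v₀) / ρ ^ 2 - (ta - ta) * E) -
      ℓ / r ^ 2 * nsq (w - v₀) ≤ f ta y w
    rw [sub_self, zero_smul, sub_zero, zero_mul, sub_zero]
    have c0 := hf'.nonneg ta ⟨hta, htab.trans_lt htbT⟩ y w
    have c3 : 0 ≤ ℓ / r ^ 2 * nsq (w - v₀) := mul_nonneg (by positivity) (sq_nonneg' _)
    have c6 : 0 ≤ nsq (y - x₀) / ρ ^ 2 := div_nonneg (sq_nonneg' _) hρ2.le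
    by_cases hy : nsq (y - x₀) ≤ ρ ^ 2
    · by_cases hw : nsq (w - v₀) ≤ r ^ 2
      · have c1 := hini y w hy hw
        have c2 : ℓ * (1 - nsq (y - x₀) / ρ ^ 2) ≤ ℓ * 1 :=
          mul_le_mul_of_nonneg_left (by linarith) hℓ.le
        linarith
      · push Not at hw
        have c2 : ℓ * (1 - nsq (y - x₀) / ρ ^ 2) ≤ ℓ * 1 :=
          mul_le_mul_of_nonneg_left (by linarith) hℓ.le
        have c4 := mul_le_mul_of_nonneg_left hw.le (show 0 ≤ ℓ / r ^ 2 by positivity)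
        have c5 : ℓ / r ^ 2 * r ^ 2 = ℓ := by field_simp
        linarith
    · push Not at hy
      have c1 : 1 ≤ nsq (y - x₀) / ρ ^ 2 := by
        rw [le_div_iff₀ hρ2]
        linarith
      have c2 : ℓ * (1 - nsq (y - x₀) / ρ ^ 2) ≤ 0 :=
        mul_nonpos_of_nonneg_of_nonpos hℓ.le (by linarith)
      linarith
  · intro t ht y w hlt
    have htT : t ∈ Ioo 0 T := ⟨hta.trans_lt ht.1, ht.2.trans_lt htbT⟩
    have hf0 := hf'.nonneg t ⟨htT.1.le, htT.2⟩ y w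
    have hpos' : 0 < ℓ * (1 - nsq (y - x₀ - (t - ta) • v₀) / ρ ^ 2 - (t - ta) * E) -
      ℓ / r ^ 2 * nsq (w - v₀) := hf0.trans_lt hlt
    have b0 : 0 ≤ (t - ta) * E := mul_nonneg (by linarith [ht.1]) hE0.le
    have b1 : nsq (y - x₀ - (t - ta) • v₀) ≤ ρ ^ 2 := by
      by_contra hcon
      push Not at hcon
      have c1 : 1 ≤ nsq (y - x₀ - (t - ta) • v₀) / ρ ^ 2 := by
        rw [le_div_iff₀ hρ2]
        linarith
      have c2 : ℓ * (1 - nsq (y - x₀ - (t - ta) • v₀) / ρ ^ 2 - (t - ta) * E) ≤ 0 :=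
        mul_nonpos_of_nonneg_of_nonpos hℓ.le (by linarith)
      have c3 : 0 ≤ ℓ / r ^ 2 * nsq (w - v₀) := mul_nonneg (by positivity) (sq_nonneg' _)
      linarith
    have b2 : nsq (w - v₀) ≤ r ^ 2 := by
      by_contra hcon
      push Not at hcon
      have c1 : 0 ≤ nsq (y - x₀ - (t - ta) • v₀) / ρ ^ 2 := div_nonneg (sq_nonneg' _) hρ2.le
      have c2 : ℓ * (1 - nsq (y - x₀ - (t - ta) • v₀) / ρ ^ 2 - (t - ta) * E) ≤ ℓ * 1 :=
        mul_le_mul_of_nonneg_left (by linarith) hℓ.le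
      have c3 : ℓ ≤ ℓ / r ^ 2 * nsq (w - v₀) := by
        have c4 := mul_le_mul_of_nonneg_left hcon.le (show 0 ≤ ℓ / r ^ 2 by positivity)
        have c5 : ℓ / r ^ 2 * r ^ 2 = ℓ := by field_simp
        linarith
      linarith
    have b3 : nsq w ≤ 2 * r ^ 2 + 2 * V ^ 2 := by
      have e1 : w = (w - v₀) + v₀ := by abel
      have e2 := nsq_add_le (w - v₀) v₀
      rw [← e1] at e2
      linarith
    have b4 : ∀ i : Fin d, ab γ (f t y) i i w ≤ M₁ := by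
      intro i
      have c1 := (le_abs_self _).trans ((hco δ T f hf hU t htT y).1 i i w)
      have c2 : M * (1 + nsq w) ≤ M₁ := by
        rw [hM₁]
        exact mul_le_mul_of_nonneg_left (by linarith) hM
      linarith
    have b5 : ∑ i, ab γ (f t y) i i w ≤ d * M₁ := by
      calc ∑ i, ab γ (f t y) i i w ≤ ∑ _i : Fin d, M₁ := Finset.sum_le_sum fun i _ => b4 i
        _ = d * M₁ := by simp
    have b6 : ctr γ (f t y) (fun v => ℓ * (1 - nsq (y - x₀ - (t - ta) • v₀) / ρ ^ 2 -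
        (t - ta) * E) - ℓ / r ^ 2 * nsq (v - v₀)) w =
        -(2 * (ℓ / r ^ 2)) * ∑ i, ab γ (f t y) i i w := by
      unfold ctr
      rw [Finset.mul_sum]
      refine Finset.sum_congr rfl fun i _ => ?_
      rw [Finset.sum_eq_single i]
      · rw [pd_quad, if_pos rfl]
        ring
      · intro j _ hj
        rw [pd_quad, if_neg (Ne.symm hj)]
        ring
      · intro h
        exact absurd (Finset.mem_univ i) h
    have b7 := dot_abs_le hρ.le hr.le b1 b2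
    have b8 := (abs_le.1 b7).1
    show ℓ * (-(2 * dot (y - x₀ - (t - ta) • v₀) (w - v₀)) / ρ ^ 2 - E) < _
    rw [b6]
    have c1 : -(2 * dot (y - x₀ - (t - ta) • v₀) (w - v₀)) / ρ ^ 2 ≤ 2 * r / ρ := by
      rw [div_le_div_iff₀ hρ2 hρ]
      have := mul_le_mul_of_nonneg_right (show -(2 * dot (y - x₀ - (t - ta) • v₀) (w - v₀)) ≤
        2 * (ρ * r) by linarith) hρ.le
      nlinarith
    have c2 : ℓ * (-(2 * dot (y - x₀ - (t - ta) • v₀) (w - v₀)) / ρ ^ 2 - E) ≤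
        ℓ * (2 * r / ρ - E) := mul_le_mul_of_nonneg_left (by linarith) hℓ.le
    have c3 : ℓ * (2 * r / ρ - E) = -(ℓ * (δ * (2 * (d * M₁) / r ^ 2)) + ℓ) := by
      rw [hE]
      ring
    have c4 : δ * (-(2 * (ℓ / r ^ 2)) * ∑ i, ab γ (f t y) i i w) ≥
        -(ℓ * (δ * (2 * (d * M₁) / r ^ 2))) := by
      have c5 : δ * (2 * (ℓ / r ^ 2)) * ∑ i, ab γ (f t y) i i w ≤
          δ * (2 * (ℓ / r ^ 2)) * (d * M₁) := mul_le_mul_of_nonneg_left b5 (by positivity)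
      have c6 : δ * (2 * (ℓ / r ^ 2)) * (d * M₁) = ℓ * (δ * (2 * (d * M₁) / r ^ 2)) := by ring
      have c7 : δ * (-(2 * (ℓ / r ^ 2)) * ∑ i, ab γ (f t y) i i w) =
          -(δ * (2 * (ℓ / r ^ 2)) * ∑ i, ab γ (f t y) i i w) := by ring
      rw [c7]
      linarith
    linarith

end Pool.Agent.H85.LN
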